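import Pool.Agent.helper74.Lam.Ind

set_option autoImplicit false

/-!
# Online algorithms that use a selected part of the neighbourhood
-/

namespace Pool.Agent.helper74.Lam

open Finset

variable {n : ℕ}

/-- The first element of `R` in the order `τ`. -/
noncomputable def fst (τ : Equiv.Perm (Fin n)) (R : Finset (Fin n)) : Option (Fin n) :=
  if h : R.Nonempty then some (first_eq τ R h).choose else none

/-- The deterministic online algorithm: Ranking with the order `τ` on the selected sets. -/
noncomputable def selAlg (c : Fin n → (Fin n → Finset (Fin n)) → Finset (Fin n)) (τ : Equiv.Perm (Fin n)) :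
    Fin n → (Fin n → Finset (Fin n)) → Option (Fin n) :=
  fun i P => fst τ (c i (fun j => if j ≤ i then P j else ∅) \
    Ms (fun l => c l (fun j => if j ≤ l then P j else ∅)) τ i)

theorem Ms_congr (S S' : Fin n → Finset (Fin n)) (τ : Equiv.Perm (Fin n)) (j : ℕ)
    (h : ∀ i : Fin n, (i : ℕ) < j → S i = S' i) : Ms S τ j = Ms S' τ j := by
  induction j with
  | zero => rfl
  | succ j ih =>
    rw [Ms, Ms, ih fun i hi => h i (by omega)]
    by_cases hj : j < n
    · rw [dif_pos hj, dif_pos hj, h ⟨j, hj⟩ (by simp)]
    · rw [dif_neg hj, dif_neg hj]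

theorem elim_fst (τ : Equiv.Perm (Fin n)) (N S M : Finset (Fin n)) (h : S ⊆ N) :
    (fst τ (S \ M)).elim M (fun v => if v ∈ N ∧ v ∉ M then insert v M else M) = stp τ S M := by
  unfold fst stp
  split_ifs with hR
  · have hx := (first_eq τ (S \ M) hR).choose_spec
    set x := (first_eq τ (S \ M) hR).choose
    rw [Option.elim_some, hx.2, if_pos ⟨h (mem_sdiff.1 hx.1).1, (mem_sdiff.1 hx.1).2⟩, union_comm, insert_eq]
  · rw [Option.elim_none]
    rw [not_nonempty_iff_eq_empty] at hR
    rw [hR]
    simp

/-- The matching found by a deterministic online algorithm. -/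
def onl (A : Fin n → (Fin n → Finset (Fin n)) → Option (Fin n)) (N : Fin n → Finset (Fin n)) : ℕ :=
  ((List.finRange n).foldl
    (fun (M : Finset (Fin n)) (i : Fin n) =>
      (A i (fun j => if j ≤ i then N j else ∅)).elim M
        (fun v => if v ∈ N i ∧ v ∉ M then insert v M else M))
    (∅ : Finset (Fin n))).card

theorem onl_sel (c : Fin n → (Fin n → Finset (Fin n)) → Finset (Fin n)) (τ : Equiv.Perm (Fin n))
    (N : Fin n → Finset (Fin n)) (h : ∀ i, c i (fun j => if j ≤ i then N j else ∅) ⊆ N i) :
    onl (selAlg c τ) N = (Ms (fun i => c i (fun j => if j ≤ i then N j else ∅)) τ n).card := by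
  unfold onl
  congr 1
  set S' : Fin n → Finset (Fin n) := fun i => c i (fun j => if j ≤ i then N j else ∅) with hS'
  have hin : ∀ (l i : Fin n), l ≤ i →
      c l (fun j => if j ≤ l then (if j ≤ i then N j else ∅) else ∅) = S' l := by
    intro l i hli
    rw [hS']
    simp only
    congr 1
    funext j
    by_cases h1 : j ≤ l
    · rw [if_pos h1, if_pos h1, if_pos (h1.trans hli)]
    · rw [if_neg h1, if_neg h1]
  have h1 : ∀ k, k ≤ n → ((List.finRange n).take k).foldl
      (fun (M : Finset (Fin n)) (i : Fin n) =>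
      (selAlg c τ i (fun j => if j ≤ i then N j else ∅)).elim M
        (fun v => if v ∈ N i ∧ v ∉ M then insert v M else M)) ∅ = Ms S' τ k := by
    intro k
    induction k with
    | zero => intro _; simp [Ms]
    | succ k ih =>
      intro hk
      have h1 : (List.finRange n).take (k + 1) = (List.finRange n).take k ++ [⟨k, hk⟩] := by
        rw [List.take_succ_eq_append_getElem (by simpa using hk)]
        simp
      rw [h1, List.foldl_append, ih (by omega), Ms, dif_pos (by omega : k < n)]
      simp only [List.foldl_cons, List.foldl_nil]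
      set i : Fin n := ⟨k, hk⟩ with hi
      have e1 : selAlg c τ i (fun j => if j ≤ i then N j else ∅) = fst τ (S' i \ Ms S' τ k) := by
        unfold selAlg
        have e2 : c i (fun j => if j ≤ i then (if j ≤ i then N j else ∅) else ∅) = S' i := hin i i le_rfl
        have e3 : Ms (fun l => c l (fun j => if j ≤ l then (if j ≤ i then N j else ∅) else ∅)) τ (i : ℕ)
            = Ms S' τ k := Ms_congr _ _ _ _ fun l hl => hin l i (by rw [Fin.le_def]; omega)
        rw [e2, e3]
      rw [e1]
      exact elim_fst τ (N i) (S' i) (Ms S' τ k) (h i)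
  have := h1 n le_rfl
  rwa [List.take_of_length_le (by simp)] at this

/-- The randomized algorithm with a uniformly random order. -/
noncomputable def selMix (c : Fin n → (Fin n → Finset (Fin n)) → Finset (Fin n)) :
    (Fin n → (Fin n → Finset (Fin n)) → Option (Fin n)) → ℝ :=
  fun A => ((univ.filter fun τ : Equiv.Perm (Fin n) => selAlg c τ = A).card : ℝ) / n.factorial

theorem selMix_sum (c : Fin n → (Fin n → Finset (Fin n)) → Finset (Fin n))
    (f : (Fin n → (Fin n → Finset (Fin n)) → Option (Fin n)) → ℝ) :
    ∑ A, selMix c A * f A = (∑ τ : Equiv.Perm (Fin n), f (selAlg c τ)) / n.factorial := by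
  unfold selMix
  rw [← sum_fiberwise univ (fun τ => selAlg c τ) (fun τ => f (selAlg c τ)), sum_div]
  refine sum_congr rfl fun A _ => ?_
  rw [sum_congr rfl fun τ hτ => by rw [(mem_filter.1 hτ).2], sum_const, nsmul_eq_mul]
  ring

/-- The value of Ranking on the monotone graph. -/
noncomputable def upVal (n : ℕ) : ℝ := (∑ τ : Equiv.Perm (Fin n), ((Ms (up n) τ n).card : ℝ)) / n.factorial

theorem sel (c : Fin n → (Fin n → Finset (Fin n)) → Finset (Fin n)) :
    (∀ A, 0 ≤ selMix c A) ∧ ∑ A, selMix c A = 1 ∧
      ∀ N : Fin n → Finset (Fin n),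
        (∀ i, c i (fun j => if j ≤ i then N j else ∅) ⊆ N i) →
        (∀ i j : Fin n, i < j →
          c j (fun l => if l ≤ j then N l else ∅) ⊆ c i (fun l => if l ≤ i then N l else ∅) ∨
            Disjoint (c j (fun l => if l ≤ j then N l else ∅)) (c i (fun l => if l ≤ i then N l else ∅))) →
        (∃ σ : Equiv.Perm (Fin n), ∀ i, σ i ∈ c i (fun j => if j ≤ i then N j else ∅)) →
        upVal n ≤ ∑ A, selMix c A * (onl A N : ℝ) := by
  refine ⟨fun A => by unfold selMix; positivity, ?_, fun N h1 h2 h3 => ?_⟩
  · have := selMix_sum c fun _ => 1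
    simp only [mul_one, sum_const, card_univ, Fintype.card_perm, Fintype.card_fin, nsmul_eq_mul] at this
    rw [this]
    have : (n.factorial : ℝ) ≠ 0 := by exact_mod_cast Nat.factorial_ne_zero n
    field_simp
  · rw [selMix_sum c fun A => (onl A N : ℝ)]
    unfold upVal
    apply div_le_div_of_nonneg_right _ (by positivity)
    refine (laminar_ge _ h2 h3).trans (le_of_eq (sum_congr rfl fun τ _ => ?_))
    rw [onl_sel c τ N h1]

/-- The vertices with the same history as the partner of `i` in the graph `N` with the matching `σ`. -/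
def hist (N : Fin n → Finset (Fin n)) (σ : Equiv.Perm (Fin n)) :
    Fin n → (Fin n → Finset (Fin n)) → Finset (Fin n) :=
  fun i P => univ.filter fun v => ∀ j ≤ i, (v ∈ P j ↔ σ i ∈ N j)

theorem every (N : Fin n → Finset (Fin n)) (σ : Equiv.Perm (Fin n)) (hσ : ∀ i, σ i ∈ N i) (π : Equiv.Perm (Fin n)) :
    upVal n ≤ ∑ A, selMix (hist N σ) A * (onl A (fun i => (N i).image π) : ℝ) := by
  have hm : ∀ i v, v ∈ hist N σ i (fun j => if j ≤ i then (N j).image π else ∅) ↔
      ∀ j ≤ i, (v ∈ (N j).image π ↔ σ i ∈ N j) := by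
    intro i v
    simp only [hist, mem_filter, mem_univ, true_and]
    refine forall_congr' fun j => forall_congr' fun hj => ?_
    rw [if_pos hj]
  refine (sel (hist N σ)).2.2 _ ?_ ?_ ?_
  · intro i v hv
    exact ((hm i v).1 hv i le_rfl).2 (hσ i)
  · intro i j hij
    by_cases hs : ∀ l ≤ i, (σ i ∈ N l ↔ σ j ∈ N l)
    · left
      intro v hv
      rw [hm] at hv ⊢
      intro l hl
      rw [hv l (hl.trans hij.le), hs l hl]
    · right
      rw [disjoint_left]
      intro v hv hv'
      apply hs
      intro l hl
      rw [← (hm j v).1 hv l (hl.trans hij.le), ← (hm i v).1 hv' l hl]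
  · refine ⟨σ.trans π, fun i => ?_⟩
    rw [hm]
    intro j _
    rw [Equiv.trans_apply, mem_image]
    constructor
    · rintro ⟨a, ha, h⟩
      rwa [← π.injective h]
    · intro h
      exact ⟨_, h, rfl⟩

end Pool.Agent.helper74.Lam
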