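import Pool.Agent.helper74.Lam.Fin

set_option autoImplicit false

/-!
# Edges to vertices whose partner has already arrived do not hurt
-/

namespace Pool.Agent.helper74.Lam

open Finset

variable {n : ℕ}

/-- The vertices whose partner has arrived before time `j`. -/
def gone (σ : Equiv.Perm (Fin n)) (j : ℕ) : Finset (Fin n) := (univ.filter fun l : Fin n => (l : ℕ) < j).image σ

theorem gone_mono (σ : Equiv.Perm (Fin n)) {i j : ℕ} (h : i ≤ j) : gone σ i ⊆ gone σ j := by
  apply image_subset_image
  intro v hv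
  simp only [mem_filter, mem_univ, true_and] at hv ⊢
  omega

theorem mem_gone (σ : Equiv.Perm (Fin n)) (i : Fin n) (j : ℕ) : σ i ∈ gone σ j ↔ (i : ℕ) < j := by
  unfold gone
  rw [mem_image]
  constructor
  · rintro ⟨l, hl, h⟩
    rw [σ.injective h] at hl
    simpa using hl
  · intro h
    exact ⟨i, by simpa using h, rfl⟩

/-- The neighbours whose partner has not arrived before. -/
def ess (σ : Equiv.Perm (Fin n)) (N : Fin n → Finset (Fin n)) : Fin n → Finset (Fin n) := fun i => N i \ gone σ i

theorem ess_le (σ : Equiv.Perm (Fin n)) (N : Fin n → Finset (Fin n)) (τ : Equiv.Perm (Fin n)) (j : ℕ) (hj : j ≤ n) :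
    Ms N τ j \ gone σ j ⊆ Ms (ess σ N) τ j ∧ (Ms (ess σ N) τ j).card ≤ (Ms N τ j).card := by
  induction j with
  | zero => simp [Ms]
  | succ j ih =>
    obtain ⟨h1, h2⟩ := ih (by omega)
    have hjn : j < n := by omega
    rw [Ms, Ms, dif_pos hjn, dif_pos hjn]
    set M := Ms (ess σ N) τ j
    set P := Ms N τ j
    set S := N ⟨j, hjn⟩ with hS
    have hE : ess σ N ⟨j, hjn⟩ = S \ gone σ j := rfl
    rw [hE]
    have hg : gone σ j ⊆ gone σ (j + 1) := gone_mono σ (by omega)
    -- the free vertices of the reduced graph are free in the graph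
    have hR : (S \ gone σ j) \ M ⊆ S \ P := by
      intro v hv
      rw [mem_sdiff, mem_sdiff] at hv
      rw [mem_sdiff]
      exact ⟨hv.1.1, fun h => hv.2 (h1 (mem_sdiff.2 ⟨h, hv.1.2⟩))⟩
    unfold stp
    rcases ((S \ gone σ j) \ M).eq_empty_or_nonempty with h0 | h0
    · rw [h0]
      simp only [filter_empty, union_empty]
      constructor
      · intro v hv
        rw [mem_sdiff, mem_union] at hv
        rcases hv.1 with h | h
        · exact h1 (mem_sdiff.2 ⟨h, fun h' => hv.2 (hg h')⟩)
        · have h3 : v ∈ S := (mem_sdiff.1 (mem_filter.1 h).1).1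
          by_contra h4
          have : v ∈ (S \ gone σ j) \ M := mem_sdiff.2 ⟨mem_sdiff.2 ⟨h3, fun h' => hv.2 (hg h')⟩, h4⟩
          rw [h0] at this
          simp at this
      · exact h2.trans (card_le_card subset_union_left)
    · obtain ⟨w, hw, he⟩ := first_eq τ _ h0
      obtain ⟨w', hw', he'⟩ := first_eq τ (S \ P) (h0.mono hR)
      rw [he, he']
      constructor
      · intro v hv
        rw [mem_sdiff, mem_union, mem_singleton] at hv
        rw [mem_union, mem_singleton]
        rcases hv.1 with h | h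
        · exact Or.inl (h1 (mem_sdiff.2 ⟨h, fun h' => hv.2 (hg h')⟩))
        · by_cases h4 : v ∈ M
          · exact Or.inl h4
          · right
            subst h
            have h5 : v ∈ (S \ gone σ j) \ M :=
              mem_sdiff.2 ⟨mem_sdiff.2 ⟨(mem_sdiff.1 hw').1, fun h' => hv.2 (hg h')⟩, h4⟩
            have h6 : v ∈ ((S \ gone σ j) \ M).filter fun v => ∀ w ∈ (S \ gone σ j) \ M, τ v ≤ τ w := by
              rw [mem_filter]
              refine ⟨h5, fun u hu => ?_⟩
              have h7 : v ∈ (S \ P).filter fun v => ∀ w ∈ S \ P, τ v ≤ τ w := by rw [he']; simp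
              exact (mem_filter.1 h7).2 u (hR hu)
            rw [he, mem_singleton] at h6
            exact h6
      · have e1 : (M ∪ {w}).card = M.card + 1 := by
          rw [union_comm, ← insert_eq, card_insert_of_notMem (mem_sdiff.1 hw).2]
        have e2 : (P ∪ {w'}).card = P.card + 1 := by
          rw [union_comm, ← insert_eq, card_insert_of_notMem (mem_sdiff.1 hw').2]
        omega

/-- Ranking on a graph whose essential part is laminar. -/
theorem ess_laminar_ge (N : Fin n → Finset (Fin n)) (σ : Equiv.Perm (Fin n)) (hσ : ∀ i, σ i ∈ N i)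
    (h : ∀ i j : Fin n, i < j → N j \ gone σ j ⊆ N i ∨ Disjoint (N j \ gone σ j) (N i)) :
    ∑ τ : Equiv.Perm (Fin n), ((Ms (up n) τ n).card : ℝ) ≤ ∑ τ : Equiv.Perm (Fin n), ((Ms N τ n).card : ℝ) := by
  refine (laminar_ge (ess σ N) ?_ ⟨σ, fun i => ?_⟩).trans ?_
  · intro i j hij
    have hg : gone σ i ⊆ gone σ j := gone_mono σ (by rw [Fin.lt_def] at hij; omega)
    rcases h i j hij with h1 | h1
    · left
      intro v hv
      exact mem_sdiff.2 ⟨h1 hv, fun h' => (mem_sdiff.1 hv).2 (hg h')⟩
    · right
      exact h1.mono_right sdiff_subset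
  · exact mem_sdiff.2 ⟨hσ i, fun h' => by
      rw [mem_gone] at h'
      omega⟩
  · refine sum_le_sum fun τ _ => ?_
    exact_mod_cast (ess_le σ N τ n le_rfl).2

end Pool.Agent.helper74.Lam
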