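import Pool.Agent.helper74.Lam.Upp

set_option autoImplicit false

/-!
# Final forms
-/

namespace Pool.Agent.helper74.Lam

open Finset

variable {n : ℕ}

theorem Ms_rename (S : Fin n → Finset (Fin n)) (τ g : Equiv.Perm (Fin n)) (j : ℕ) :
    Ms (fun i => (S i).image g) (τ * g⁻¹) j = (Ms S τ j).image g := by
  induction j with
  | zero => simp [Ms]
  | succ j ih =>
    rw [Ms, Ms]
    by_cases hj : j < n
    · rw [dif_pos hj, dif_pos hj, ih, ← stp_image]
    · rw [dif_neg hj, dif_neg hj, ih]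

theorem sum_rename (S : Fin n → Finset (Fin n)) (g : Equiv.Perm (Fin n)) :
    ∑ τ : Equiv.Perm (Fin n), ((Ms (fun i => (S i).image g) τ n).card : ℝ)
      = ∑ τ : Equiv.Perm (Fin n), ((Ms S τ n).card : ℝ) := by
  rw [← Equiv.sum_comp (Equiv.mulRight g⁻¹) (fun τ => ((Ms (fun i => (S i).image g) τ n).card : ℝ))]
  refine sum_congr rfl fun τ _ => ?_
  rw [Equiv.coe_mulRight, Ms_rename, card_image_of_injective _ g.injective]

/-- The double average of the frozen statement. -/
theorem double (n : ℕ) :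
    (∑ π : Equiv.Perm (Fin n), ∑ τ : Equiv.Perm (Fin n), ((Ms (fun i => (up n i).image π) τ n).card : ℝ))
      / ((n.factorial : ℝ) * (n.factorial : ℝ)) = upVal n := by
  rw [sum_congr rfl fun π _ => sum_rename (up n) π, sum_const, card_univ, Fintype.card_perm, Fintype.card_fin,
    nsmul_eq_mul]
  unfold upVal
  have : (n.factorial : ℝ) ≠ 0 := by exact_mod_cast Nat.factorial_ne_zero n
  field_simp

theorem mix_le (p : (Fin n → (Fin n → Finset (Fin n)) → Option (Fin n)) → ℝ) (hp : ∀ A, 0 ≤ p A)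
    (h1 : ∑ A, p A = 1) :
    (∑ π : Equiv.Perm (Fin n), ∑ A, p A * (onl A (fun i => (up n i).image π) : ℝ)) / n.factorial ≤ upVal n := by
  rw [sum_comm, sum_div]
  have h : ∀ A, (∑ π : Equiv.Perm (Fin n), p A * (onl A (fun i => (up n i).image π) : ℝ)) / n.factorial
      ≤ p A * upVal n := by
    intro A
    rw [← mul_sum, mul_div_assoc]
    exact mul_le_mul_of_nonneg_left (det_le A) (hp A)
  refine (sum_le_sum fun A _ => h A).trans (le_of_eq ?_)
  rw [← sum_mul, h1, one_mul]

theorem mix_exists (p : (Fin n → (Fin n → Finset (Fin n)) → Option (Fin n)) → ℝ) (hp : ∀ A, 0 ≤ p A)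
    (h1 : ∑ A, p A = 1) :
    ∃ π : Equiv.Perm (Fin n), ∑ A, p A * (onl A (fun i => (up n i).image π) : ℝ) ≤ upVal n := by
  by_contra hcon
  push Not at hcon
  have h := mix_le p hp h1
  have h2 : ∑ π : Equiv.Perm (Fin n), upVal n
      < ∑ π : Equiv.Perm (Fin n), ∑ A, p A * (onl A (fun i => (up n i).image π) : ℝ) :=
    sum_lt_sum_of_nonempty ⟨1, mem_univ _⟩ fun π _ => hcon π
  rw [sum_const, card_univ, Fintype.card_perm, Fintype.card_fin, nsmul_eq_mul] at h2
  have h3 : (0 : ℝ) < n.factorial := by exact_mod_cast Nat.factorial_pos n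
  rw [div_le_iff₀ h3] at h
  linarith

theorem up_laminar (π : Equiv.Perm (Fin n)) (i j : Fin n) (h : i < j) :
    (up n j).image π ⊆ (up n i).image π := by
  apply image_subset_image
  intro v hv
  simp only [up, mem_filter, mem_univ, true_and] at hv ⊢
  exact h.le.trans hv

theorem up_match (π : Equiv.Perm (Fin n)) (i : Fin n) : π i ∈ (up n i).image π :=
  mem_image_of_mem _ (by simp [up])

end Pool.Agent.helper74.Lam
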