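import Pool.Agent.helper74.Lam.Proc

set_option autoImplicit false

/-!
# Greedy matching with a random order on laminar graphs
-/

namespace Pool.Agent.helper74.Lam

open Finset

variable {n : ℕ}

/-- The number of future partners in `C`. -/
def kk (σ : Equiv.Perm (Fin n)) (j : ℕ) (C : Finset (Fin n)) : ℕ :=
  (univ.filter fun i : Fin n => j ≤ (i : ℕ) ∧ σ i ∈ C).card

theorem kk_le (σ : Equiv.Perm (Fin n)) (j : ℕ) (C : Finset (Fin n)) : kk σ j C ≤ C.card := by
  unfold kk
  refine card_le_card_of_injOn (fun i => σ i) ?_ (fun a _ c _ h => σ.injective h)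
  intro i hi
  simp only [coe_filter, mem_univ, true_and, Set.mem_ofPred_eq] at hi
  exact hi.2

theorem kk_last (σ : Equiv.Perm (Fin n)) (C : Finset (Fin n)) : kk σ n C = 0 := by
  unfold kk
  rw [card_eq_zero, filter_eq_empty_iff]
  intro i _ h
  have := i.2
  omega

theorem kk_not (σ : Equiv.Perm (Fin n)) (i : Fin n) (C : Finset (Fin n)) (h : σ i ∉ C) :
    kk σ (i + 1) C = kk σ i C := by
  unfold kk
  congr 1
  ext l
  simp only [mem_filter, mem_univ, true_and]
  constructor
  · rintro ⟨h1, h2⟩
    exact ⟨by omega, h2⟩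
  · rintro ⟨h1, h2⟩
    refine ⟨?_, h2⟩
    rcases Nat.lt_or_ge (i : ℕ) l with h3 | h3
    · omega
    · have : i = l := Fin.ext (by omega)
      subst this
      exact absurd h2 h

theorem kk_mem (σ : Equiv.Perm (Fin n)) (i : Fin n) (C : Finset (Fin n)) (h : σ i ∈ C) :
    kk σ (i + 1) C + 1 = kk σ i C := by
  unfold kk
  have h1 : (univ.filter fun l : Fin n => (i : ℕ) ≤ (l : ℕ) ∧ σ l ∈ C)
      = insert i (univ.filter fun l : Fin n => (i : ℕ) + 1 ≤ (l : ℕ) ∧ σ l ∈ C) := by
    ext l
    simp only [mem_filter, mem_univ, true_and, mem_insert]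
    constructor
    · rintro ⟨h1, h2⟩
      rcases Nat.lt_or_ge (i : ℕ) l with h3 | h3
      · exact Or.inr ⟨h3, h2⟩
      · exact Or.inl (Fin.ext (by omega))
    · rintro (rfl | ⟨h1, h2⟩)
      · exact ⟨le_rfl, h⟩
      · exact ⟨by omega, h2⟩
  rw [h1, card_insert_of_notMem (by simp)]

theorem kk_add (σ : Equiv.Perm (Fin n)) (j : ℕ) (C C' : Finset (Fin n)) (h : C' ⊆ C) :
    kk σ j C = kk σ j C' + kk σ j (C \ C') := by
  unfold kk
  rw [← card_union_of_disjoint]
  · congr 1
    ext l
    simp only [mem_filter, mem_univ, true_and, mem_union, mem_sdiff]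
    constructor
    · rintro ⟨h1, h2⟩
      by_cases h3 : σ l ∈ C'
      · exact Or.inl ⟨h1, h3⟩
      · exact Or.inr ⟨h1, h2, h3⟩
    · rintro (⟨h1, h2⟩ | ⟨h1, h2, -⟩)
      · exact ⟨h1, h h2⟩
      · exact ⟨h1, h2⟩
  · rw [disjoint_left]
    intro l h1 h2
    simp only [mem_filter, mem_univ, true_and, mem_sdiff] at h1 h2
    exact h2.2.2 h1.2

/-- The induction. -/
theorem main (S : Fin n → Finset (Fin n)) (hlam : ∀ i j : Fin n, i < j → S j ⊆ S i ∨ Disjoint (S j) (S i))
    (σ : Equiv.Perm (Fin n)) (hσ : ∀ i, σ i ∈ S i) (t : ℕ) :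
    ∀ j, j + t = n → ∀ C : Finset (Fin n), Past S j C →
      (∀ i : Fin n, j ≤ (i : ℕ) → S i ⊆ C ∨ Disjoint (S i) C) →
      ∑ τ : Equiv.Perm (Fin n), ((C \ Ms S τ n).card : ℝ)
        ≤ ∑ τ : Equiv.Perm (Fin n), Psi C.card (kk σ j C) (C \ Ms S τ j).card := by
  induction t with
  | zero =>
    intro j hj C _ _
    obtain rfl : j = n := by omega
    refine le_of_eq (sum_congr rfl fun τ _ => ?_)
    rw [kk_last, Psi_zero _ _ (card_le_card sdiff_subset)]
  | succ t ih =>
    intro j hj C hP hF
    have hjn : j < n := by omega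
    set i₀ : Fin n := ⟨j, hjn⟩ with hi₀
    have hMs : ∀ τ : Equiv.Perm (Fin n), Ms S τ (j + 1) = stp τ (S i₀) (Ms S τ j) := fun τ => Ms_succ S τ i₀
    rcases hF i₀ le_rfl with hsub | hdis
    · -- the set is played inside `C`
      have hP1 : Past S (j + 1) (S i₀) := by
        intro i hi
        rcases Nat.lt_or_ge (i : ℕ) j with h1 | h1
        · exact hlam i i₀ h1
        · have : i = i₀ := Fin.ext (by simp [hi₀]; omega)
          subst this
          exact Or.inl subset_rfl
      have hF1 : ∀ i : Fin n, j + 1 ≤ (i : ℕ) → S i ⊆ S i₀ ∨ Disjoint (S i) (S i₀) :=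
        fun i hi => hlam i₀ i (by rw [Fin.lt_def]; simp [hi₀]; omega)
      have hP2 : Past S (j + 1) (C \ S i₀) := by
        intro i hi
        rcases Nat.lt_or_ge (i : ℕ) j with h1 | h1
        · rcases hP i h1 with h2 | h2
          · exact Or.inl (sdiff_subset.trans h2)
          · exact Or.inr (h2.mono_left sdiff_subset)
        · have : i = i₀ := Fin.ext (by simp [hi₀]; omega)
          subst this
          exact Or.inr sdiff_disjoint
      have hF2 : ∀ i : Fin n, j + 1 ≤ (i : ℕ) → S i ⊆ C \ S i₀ ∨ Disjoint (S i) (C \ S i₀) := by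
        intro i hi
        rcases hF i (by omega) with h2 | h2
        · rcases hF1 i hi with h3 | h3
          · right
            exact (disjoint_sdiff (s := S i₀) (t := C)).mono_left h3
          · left
            rw [subset_sdiff]
            exact ⟨h2, h3⟩
        · right
          exact h2.mono_right sdiff_subset
      have I1 := ih (j + 1) (by omega) (S i₀) hP1 hF1
      have I2 := ih (j + 1) (by omega) (C \ S i₀) hP2 hF2
      have hk1 : kk σ (j + 1) (S i₀) + 1 = kk σ j (S i₀) := kk_mem σ i₀ _ (hσ i₀)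
      have hk2 : kk σ (j + 1) (C \ S i₀) = kk σ j (C \ S i₀) :=
        kk_not σ i₀ _ fun h => (mem_sdiff.1 h).2 (hσ i₀)
      -- splitting the count
      have e0 : ∀ τ : Equiv.Perm (Fin n), ((C \ Ms S τ n).card : ℝ)
          = ((S i₀ \ Ms S τ n).card : ℝ) + (((C \ S i₀) \ Ms S τ n).card : ℝ) := by
        intro τ
        rw [← Nat.cast_add, ← card_union_of_disjoint]
        · congr 2
          ext v
          simp only [mem_union, mem_sdiff]
          constructor
          · rintro ⟨h1, h2⟩
            by_cases h3 : v ∈ S i₀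
            · exact Or.inl ⟨h3, h2⟩
            · exact Or.inr ⟨⟨h1, h3⟩, h2⟩
          · rintro (⟨h1, h2⟩ | ⟨⟨h1, h3⟩, h2⟩)
            · exact ⟨hsub h1, h2⟩
            · exact ⟨h1, h2⟩
        · rw [disjoint_left]
          intro v h1 h2
          exact (mem_sdiff.1 (mem_sdiff.1 h2).1).2 (mem_sdiff.1 h1).1
      rw [sum_congr rfl fun τ _ => e0 τ, sum_add_distrib]
      -- playing
      have J1 : ∑ τ : Equiv.Perm (Fin n), Psi (S i₀).card (kk σ (j + 1) (S i₀)) (S i₀ \ Ms S τ (j + 1)).card
          ≤ ∑ τ : Equiv.Perm (Fin n), Psi (S i₀).card (kk σ j (S i₀)) (S i₀ \ Ms S τ j).card := by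
        refine sum_le_sum fun τ _ => ?_
        rw [hMs τ, card_stp, ← hk1]
        have h1 : (S i₀ \ Ms S τ j).card ≤ (S i₀).card := card_le_card sdiff_subset
        have h2 : kk σ (j + 1) (S i₀) + 1 ≤ (S i₀).card := by rw [hk1]; exact kk_le _ _ _
        rcases Nat.eq_zero_or_pos (S i₀ \ Ms S τ j).card with h3 | h3
        · rw [h3, Psi_free_zero, Psi_free_zero]
        · obtain ⟨s, hs⟩ : ∃ s, (S i₀ \ Ms S τ j).card = s + 1 := ⟨(S i₀ \ Ms S τ j).card - 1, by omega⟩
          rw [hs, Nat.add_sub_cancel]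
          exact Psi_play_le _ _ _ h2 (by omega)
      have J2 : ∑ τ : Equiv.Perm (Fin n), Psi (C \ S i₀).card (kk σ (j + 1) (C \ S i₀))
            ((C \ S i₀) \ Ms S τ (j + 1)).card
          = ∑ τ : Equiv.Perm (Fin n), Psi (C \ S i₀).card (kk σ j (C \ S i₀)) ((C \ S i₀) \ Ms S τ j).card := by
        refine sum_congr rfl fun τ _ => ?_
        rw [hMs τ, hk2, sdiff_stp _ _ _ _ sdiff_disjoint]
      refine (add_le_add I1 I2).trans ((add_le_add J1 J2.le).trans ?_)
      rw [sum_Psi_sub S j C (S i₀) hP hsub _ (kk_le _ _ _),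
        sum_Psi_sub S j C (C \ S i₀) hP sdiff_subset _ (kk_le _ _ _), sum_Psi,
        kk_add σ j C (S i₀) hsub]
      have e3 : C.card = (S i₀).card + (C \ S i₀).card := by
        rw [card_sdiff_of_subset hsub]
        have := card_le_card hsub
        omega
      have := @lin_split (fun i => ∑ τ : Equiv.Perm (Fin n), b C.card (C \ Ms S τ j).card i)
        (fun i => sum_nonneg fun τ _ => b_nonneg _ _ _)
        (fun i => by
          rw [mul_sum]
          exact sum_le_sum fun τ _ => b_succ_le _ _ _ (card_le_card sdiff_subset))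
        (S i₀).card (C \ S i₀).card (kk σ j (S i₀)) (kk σ j (C \ S i₀))
      rw [← e3] at this
      exact this
    · -- the set is played outside `C`
      have hP1 : Past S (j + 1) C := by
        intro i hi
        rcases Nat.lt_or_ge (i : ℕ) j with h1 | h1
        · exact hP i h1
        · have : i = i₀ := Fin.ext (by simp [hi₀]; omega)
          subst this
          exact Or.inr hdis.symm
      have I := ih (j + 1) (by omega) C hP1 fun i hi => hF i (by omega)
      have hk : kk σ (j + 1) C = kk σ j C := kk_not σ i₀ _ fun h => (disjoint_left.1 hdis (hσ i₀)) h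
      refine I.trans (le_of_eq (sum_congr rfl fun τ _ => ?_))
      rw [hk, hMs τ, sdiff_stp _ _ _ _ hdis.symm]

/-- Laminar graphs: the average number of unmatched vertices is at most `Psi n n n`. -/
theorem laminar_le (S : Fin n → Finset (Fin n))
    (hlam : ∀ i j : Fin n, i < j → S j ⊆ S i ∨ Disjoint (S j) (S i))
    (σ : Equiv.Perm (Fin n)) (hσ : ∀ i, σ i ∈ S i) :
    ∑ τ : Equiv.Perm (Fin n), ((univ \ Ms S τ n).card : ℝ) ≤ (n.factorial : ℝ) * Psi n n n := by
  have h := main S hlam σ hσ n 0 (by omega) univ (fun i hi => absurd hi (by omega)) (fun i _ => Or.inl (subset_univ _))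
  have h2 : kk σ 0 univ = n := by unfold kk; simp
  rw [h2] at h
  refine h.trans (le_of_eq ?_)
  simp [Ms, Fintype.card_perm]

/-- The monotone graph. -/
def up (n : ℕ) : Fin n → Finset (Fin n) := fun i => univ.filter fun j : Fin n => i ≤ j

/-- The vertices from `j` on. -/
def tail (n j : ℕ) : Finset (Fin n) := univ.filter fun v : Fin n => j ≤ (v : ℕ)

theorem tail_card (j : ℕ) (hj : j ≤ n) : (tail n j).card = n - j := by
  rcases Nat.lt_or_ge j n with h | h
  · have e : tail n j = Finset.Ici (⟨j, h⟩ : Fin n) := by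
      ext v
      simp [tail, Fin.le_def]
    rw [e, Fin.card_Ici]
  · have e : tail n j = ∅ := by
      ext v
      simp only [tail, mem_filter, mem_univ, true_and, notMem_empty, iff_false]
      omega
    rw [e, card_empty]
    omega

theorem up_eq (i : Fin n) : up n i = tail n (i : ℕ) := by
  ext v
  simp only [up, tail, mem_filter, mem_univ, true_and, Fin.le_def]

/-- The monotone graph: equality. -/
theorem mono_eq (t : ℕ) : ∀ j, j + t = n →
      ∑ τ : Equiv.Perm (Fin n), ((tail n j \ Ms (up n) τ n).card : ℝ)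
        = ∑ τ : Equiv.Perm (Fin n), Psi (n - j) (n - j) (tail n j \ Ms (up n) τ j).card := by
  induction t with
  | zero =>
    intro j hj
    obtain rfl : j = n := by omega
    refine sum_congr rfl fun τ _ => ?_
    rw [Nat.sub_self, Psi_zero _ _ ((card_le_card sdiff_subset).trans (by rw [tail_card j le_rfl]; simp))]
  | succ t ih =>
    intro j hj
    have hjn : j < n := by omega
    set i₀ : Fin n := ⟨j, hjn⟩ with hi₀
    have hMs : ∀ τ : Equiv.Perm (Fin n), Ms (up n) τ (j + 1) = stp τ (tail n j) (Ms (up n) τ j) := by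
      intro τ
      have := Ms_succ (up n) τ i₀
      rw [up_eq] at this
      exact this
    have hC1 : tail n (j + 1) ⊆ tail n j := by
      intro v hv
      simp only [tail, mem_filter, mem_univ, true_and] at hv ⊢
      omega
    have hC2 : ({i₀} : Finset (Fin n)) ⊆ tail n j := by
      intro v hv
      rw [mem_singleton] at hv
      subst hv
      simp [tail, hi₀]
    have hun : tail n j = tail n (j + 1) ∪ {i₀} := by
      ext v
      simp only [tail, mem_filter, mem_univ, true_and, mem_union, mem_singleton, Fin.ext_iff, hi₀]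
      omega
    have hdis : Disjoint (tail n (j + 1)) ({i₀} : Finset (Fin n)) := by
      rw [disjoint_singleton_right]
      simp [tail, hi₀]
    have hP : Past (up n) (j + 1) (tail n j) := by
      intro i hi
      left
      rw [up_eq]
      intro v hv
      simp only [tail, mem_filter, mem_univ, true_and] at hv ⊢
      omega
    -- the vertex `i₀` is never touched again
    have hfix : ∀ (τ : Equiv.Perm (Fin n)) (r : ℕ), ({i₀} : Finset (Fin n)) \ Ms (up n) τ (j + 1 + r)
        = ({i₀} : Finset (Fin n)) \ Ms (up n) τ (j + 1) := by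
      intro τ r
      induction r with
      | zero => rfl
      | succ r ihr =>
        rw [← Nat.add_assoc, Ms]
        by_cases h : j + 1 + r < n
        · rw [dif_pos h, sdiff_stp, ihr]
          rw [disjoint_singleton_left, up_eq]
          simp only [tail, mem_filter, mem_univ, true_and, hi₀]
          omega
        · rw [dif_neg h, ihr]
    have e0 : ∀ τ : Equiv.Perm (Fin n), ((tail n j \ Ms (up n) τ n).card : ℝ)
        = ((({i₀} : Finset (Fin n)) \ Ms (up n) τ (j + 1)).card : ℝ)
          + ((tail n (j + 1) \ Ms (up n) τ n).card : ℝ) := by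
      intro τ
      have hf := hfix τ (n - (j + 1))
      rw [show j + 1 + (n - (j + 1)) = n by omega] at hf
      have hc : (tail n j \ Ms (up n) τ n).card
          = (({i₀} : Finset (Fin n)) \ Ms (up n) τ n).card + (tail n (j + 1) \ Ms (up n) τ n).card := by
        rw [hun, union_sdiff_distrib, card_union_of_disjoint, Nat.add_comm]
        exact (hdis.mono_left sdiff_subset).mono_right sdiff_subset
      rw [← hf, ← Nat.cast_add, hc]
    rw [sum_congr rfl fun τ _ => e0 τ, sum_add_distrib, ih (j + 1) (by omega)]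
    have A1 : ∑ τ : Equiv.Perm (Fin n), ((({i₀} : Finset (Fin n)) \ Ms (up n) τ (j + 1)).card : ℝ)
        = ∑ τ : Equiv.Perm (Fin n), Psi ({i₀} : Finset (Fin n)).card 0
            (({i₀} : Finset (Fin n)) \ Ms (up n) τ (j + 1)).card :=
      sum_congr rfl fun τ _ => (Psi_zero _ _ (card_le_card sdiff_subset)).symm
    have A2 : ∑ τ : Equiv.Perm (Fin n), Psi (n - (j + 1)) (n - (j + 1)) (tail n (j + 1) \ Ms (up n) τ (j + 1)).card
        = ∑ τ : Equiv.Perm (Fin n), Psi (tail n (j + 1)).card (n - (j + 1))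
            (tail n (j + 1) \ Ms (up n) τ (j + 1)).card := by
      rw [tail_card (j + 1) hjn]
    rw [A1, A2, sum_Psi_sub (up n) (j + 1) (tail n j) _ hP hC2 _ (by simp),
      sum_Psi_sub (up n) (j + 1) (tail n j) _ hP hC1 _ (by rw [tail_card (j + 1) hjn]), lin_split_zero,
      show ({i₀} : Finset (Fin n)).card + (tail n (j + 1)).card = (tail n j).card by
        rw [card_singleton, tail_card (j + 1) hjn, tail_card j hjn.le]; omega, ← sum_Psi]
    refine sum_congr rfl fun τ _ => ?_
    rw [hMs τ, card_stp, tail_card j hjn.le, show n - (j + 1) = n - j - 1 by omega]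
    have h1 : (tail n j \ Ms (up n) τ j).card ≤ n - j := by
      rw [← tail_card j hjn.le]
      exact card_le_card sdiff_subset
    rcases Nat.eq_zero_or_pos (tail n j \ Ms (up n) τ j).card with h3 | h3
    · rw [h3, Psi_free_zero, Psi_free_zero]
    · obtain ⟨s, hs⟩ : ∃ s, (tail n j \ Ms (up n) τ j).card = s + 1 :=
        ⟨(tail n j \ Ms (up n) τ j).card - 1, by omega⟩
      rw [hs, Nat.add_sub_cancel]
      exact Psi_play_eq _ _ (by omega) (by omega)

theorem mono_total : ∑ τ : Equiv.Perm (Fin n), ((univ \ Ms (up n) τ n).card : ℝ) = (n.factorial : ℝ) * Psi n n n := by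
  have h := mono_eq (n := n) n 0 (by omega)
  have h0 : tail n 0 = univ := by ext v; simp [tail]
  rw [h0] at h
  rw [h]
  simp [Ms, Fintype.card_perm]

/-- On a laminar graph the greedy algorithm with a uniformly random order is at least as good as on the monotone graph. -/
theorem laminar_ge (S : Fin n → Finset (Fin n))
    (hlam : ∀ i j : Fin n, i < j → S j ⊆ S i ∨ Disjoint (S j) (S i))
    (hσ : ∃ σ : Equiv.Perm (Fin n), ∀ i, σ i ∈ S i) :
    ∑ τ : Equiv.Perm (Fin n), ((Ms (up n) τ n).card : ℝ) ≤ ∑ τ : Equiv.Perm (Fin n), ((Ms S τ n).card : ℝ) := by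
  obtain ⟨σ, hσ⟩ := hσ
  have h := laminar_le S hlam σ hσ
  rw [← mono_total] at h
  have e : ∀ (S : Fin n → Finset (Fin n)) (τ : Equiv.Perm (Fin n)),
      ((univ \ Ms S τ n).card : ℝ) = n - ((Ms S τ n).card : ℝ) := by
    intro S τ
    rw [card_sdiff_of_subset (subset_univ _), card_univ, Fintype.card_fin,
      Nat.cast_sub (by simpa using card_le_univ (Ms S τ n))]
  simp only [e, sum_sub_distrib] at h
  linarith

end Pool.Agent.helper74.Lam
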