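import Mathlib

set_option autoImplicit false

/-!
# Numbers: the exact potential of a class

`Psi M k s` is the expected number of vertices that stay free in a class of `M` vertices, `s` of which are free
(a uniformly random `s`-subset) and `k` of which have a partner that is still to come, if the adversary first
separates the `M - k` dead vertices and then plays the monotone graph.
-/

namespace Pool.Agent.helper74.Lam

open Finset

/-- `b M s i` = probability that a fixed `i`-subset is free, divided by `i!`. -/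
noncomputable def b (M s i : ℕ) : ℝ := (s.choose i : ℝ) / (M.descFactorial i : ℝ)

/-- Alternating partial sums. -/
noncomputable def E (m : ℕ) (β : ℕ → ℝ) : ℝ := ∑ i ∈ range m, (-1 : ℝ) ^ (i + 1) * β (i + 1)

/-- Their sums. -/
noncomputable def U (k : ℕ) (β : ℕ → ℝ) : ℝ := ∑ m ∈ range k, E (m + 1) β

/-- The linear form behind the potential. -/
noncomputable def lin (M k : ℕ) (β : ℕ → ℝ) : ℝ := (M : ℝ) * β 1 + U k β

/-- The potential. -/
noncomputable def Psi (M k s : ℕ) : ℝ := lin M k (b M s)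

theorem b_nonneg (M s i : ℕ) : 0 ≤ b M s i := by
  unfold b; positivity

theorem b_zero (M s : ℕ) : b M s 0 = 1 := by
  unfold b; simp

theorem mul_b_one (M s : ℕ) (h : s ≤ M) : (M : ℝ) * b M s 1 = s := by
  unfold b
  simp only [Nat.choose_one_right, Nat.descFactorial_one]
  rcases Nat.eq_zero_or_pos M with rfl | hM
  · have : s = 0 := by omega
    subst this
    simp
  · have : (M : ℝ) ≠ 0 := by positivity
    field_simp

theorem Psi_zero (M s : ℕ) (h : s ≤ M) : Psi M 0 s = s := by
  unfold Psi lin U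
  rw [range_zero, sum_empty, add_zero, mul_b_one M s h]

theorem b_succ_le (M s i : ℕ) (h : s ≤ M) : ((i : ℝ) + 1) * b M s (i + 1) ≤ b M s i := by
  unfold b
  rcases Nat.lt_or_ge s (i + 1) with h1 | h1
  · rw [Nat.choose_eq_zero_of_lt h1]
    simp only [Nat.cast_zero, zero_div, mul_zero]
    positivity
  · have hM : i + 1 ≤ M := h1.trans h
    have e1 : (s.choose (i + 1) : ℝ) * (i + 1) = s.choose i * ((s : ℝ) - i) := by
      have := Nat.choose_succ_right_eq s i
      have h2 : ((s - i : ℕ) : ℝ) = (s : ℝ) - i := by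
        rw [Nat.cast_sub (by omega)]
      rw [← h2]
      exact_mod_cast this
    have e2 : (M.descFactorial (i + 1) : ℝ) = ((M : ℝ) - i) * M.descFactorial i := by
      rw [Nat.descFactorial_succ]
      push_cast
      rw [Nat.cast_sub (by omega)]
    have p1 : (0 : ℝ) < M.descFactorial i := by
      exact_mod_cast Nat.descFactorial_pos.2 (by omega : i ≤ M)
    have p2 : (0 : ℝ) < (M : ℝ) - i := by
      have : (i : ℝ) + 1 ≤ M := by exact_mod_cast hM
      linarith
    rw [e2]
    have : ((i : ℝ) + 1) * ((s.choose (i + 1) : ℝ) / (((M : ℝ) - i) * M.descFactorial i))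
        = (s.choose i : ℝ) / M.descFactorial i * (((s : ℝ) - i) / ((M : ℝ) - i)) := by
      rw [mul_div_assoc', mul_comm ((i : ℝ) + 1), e1]
      field_simp
    rw [this]
    have h3 : ((s : ℝ) - i) / ((M : ℝ) - i) ≤ 1 := by
      rw [div_le_one p2]
      have : (s : ℝ) ≤ M := by exact_mod_cast h
      linarith
    calc _ ≤ (s.choose i : ℝ) / M.descFactorial i * 1 := by
          apply mul_le_mul_of_nonneg_left h3
          positivity
      _ = _ := mul_one _

/-- Alternating sums of a decreasing nonnegative sequence. -/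
theorem alt (r : ℕ) : ∀ f : ℕ → ℝ, (∀ i, 0 ≤ f i) → (∀ i, f (i + 1) ≤ f i) →
    0 ≤ ∑ i ∈ range r, (-1 : ℝ) ^ i * f i ∧ ∑ i ∈ range r, (-1 : ℝ) ^ i * f i ≤ f 0 := by
  induction r with
  | zero => intro f h0 _; simp [h0 0]
  | succ r ih =>
    intro f h0 h1
    obtain ⟨a1, a2⟩ := ih (fun i => f (i + 1)) (fun i => h0 _) (fun i => h1 _)
    rw [sum_range_succ']
    have : ∑ i ∈ range r, (-1 : ℝ) ^ (i + 1) * f (i + 1) = -∑ i ∈ range r, (-1 : ℝ) ^ i * f (i + 1) := by
      rw [← sum_neg_distrib]
      exact sum_congr rfl fun i _ => by ring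
    rw [this]
    have := h1 0
    simp only [pow_zero, one_mul] at *
    constructor <;> linarith

theorem E_succ (m : ℕ) (β : ℕ → ℝ) : E (m + 1) β = E m β + (-1 : ℝ) ^ (m + 1) * β (m + 1) := by
  unfold E; rw [sum_range_succ]

theorem U_succ (k : ℕ) (β : ℕ → ℝ) : U (k + 1) β = U k β + E (k + 1) β := by
  unfold U; rw [sum_range_succ]

theorem E_add (m r : ℕ) (β : ℕ → ℝ) :
    E (m + r) β = E m β + (-1 : ℝ) ^ (m + 1) * ∑ i ∈ range r, (-1 : ℝ) ^ i * β (m + 1 + i) := by
  unfold E
  rw [sum_range_add, mul_sum]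
  congr 1
  refine sum_congr rfl fun i _ => ?_
  rw [show m + i + 1 = m + 1 + i by ring, pow_add]
  ring

section split

variable {β : ℕ → ℝ} (h0 : ∀ i, 0 ≤ β i) (h1 : ∀ i : ℕ, ((i : ℝ) + 1) * β (i + 1) ≤ β i)

include h0 h1

theorem dec (i : ℕ) : β (i + 1) ≤ β i := by
  have a := h0 (i + 1)
  have c := h1 i
  have d : (0 : ℝ) ≤ i := by positivity
  nlinarith

theorem E_odd (p r : ℕ) : E (2 * p + 1) β ≤ E (2 * p + 1 + r) β := by
  rw [E_add (2 * p + 1) r]
  have := (alt r (fun i => β (2 * p + 1 + 1 + i)) (fun i => h0 _) (fun i => dec h0 h1 _)).1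
  have e : (-1 : ℝ) ^ (2 * p + 1 + 1) = 1 := by
    rw [show 2 * p + 1 + 1 = 2 * (p + 1) by ring, pow_mul]; simp
  rw [e, one_mul]
  linarith

theorem U_super (a c : ℕ) : U a β + U c β ≤ U (a + c) β := by
  rcases Nat.eq_zero_or_pos c with rfl | hc
  · simp [U]
  have key : ∀ p : ℕ, U (2 * p) β + U c β ≤ U (2 * p + c) β := by
    intro p
    induction p with
    | zero => simp [U]
    | succ p ih =>
      have e1 : U (2 * (p + 1)) β = U (2 * p) β + E (2 * p + 1) β + E (2 * p + 2) β := by
        rw [show 2 * (p + 1) = 2 * p + 1 + 1 by ring, U_succ, U_succ]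
      have e2 : U (2 * (p + 1) + c) β = U (2 * p + c) β + E (2 * p + c + 1) β + E (2 * p + c + 2) β := by
        rw [show 2 * (p + 1) + c = 2 * p + c + 1 + 1 by ring, U_succ, U_succ]
      have q1 : E (2 * p + 3) β ≤ E (2 * p + c + 2) β := by
        have := E_odd h0 h1 (p + 1) (c - 1)
        rw [show 2 * (p + 1) + 1 + (c - 1) = 2 * p + c + 2 by omega] at this
        rwa [show 2 * (p + 1) + 1 = 2 * p + 3 by ring] at this
      have q2 : E (2 * p + 3) β ≤ E (2 * p + c + 1) β := by
        rcases Nat.lt_or_ge 1 c with h2 | h2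
        · have := E_odd h0 h1 (p + 1) (c - 2)
          rw [show 2 * (p + 1) + 1 + (c - 2) = 2 * p + c + 1 by omega] at this
          rwa [show 2 * (p + 1) + 1 = 2 * p + 3 by ring] at this
        · have : c = 1 := by omega
          subst this
          rw [show 2 * p + 1 + 1 = 2 * p + 2 by ring, show 2 * p + 3 = 2 * p + 2 + 1 by ring, E_succ]
          have e : (-1 : ℝ) ^ (2 * p + 2 + 1) = -1 := by
            rw [show 2 * p + 2 + 1 = 2 * (p + 1) + 1 by ring, pow_succ, pow_mul]; simp
          rw [e]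
          have := h0 (2 * p + 2 + 1)
          linarith
      have q3 : E (2 * p + 3) β = E (2 * p + 2) β - β (2 * p + 3) := by
        rw [show 2 * p + 3 = 2 * p + 2 + 1 by ring, E_succ]
        have e : (-1 : ℝ) ^ (2 * p + 2 + 1) = -1 := by
          rw [show 2 * p + 2 + 1 = 2 * (p + 1) + 1 by ring, pow_succ, pow_mul]; simp
        rw [e]; ring
      have q4 : E (2 * p + 2) β = E (2 * p + 1) β + β (2 * p + 2) := by
        rw [show 2 * p + 2 = 2 * p + 1 + 1 by ring, E_succ]
        have e : (-1 : ℝ) ^ (2 * p + 1 + 1) = 1 := by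
          rw [show 2 * p + 1 + 1 = 2 * (p + 1) by ring, pow_mul]; simp
        rw [e]; ring
      have q5 : 2 * β (2 * p + 3) ≤ β (2 * p + 2) := by
        have := h1 (2 * p + 2)
        have h3 := h0 (2 * p + 2 + 1)
        rw [show 2 * p + 3 = 2 * p + 2 + 1 by ring]
        push_cast at this
        have h4 : (0 : ℝ) ≤ p := by positivity
        nlinarith
      rw [e1, e2]
      linarith
  rcases Nat.even_or_odd' a with ⟨p, rfl | rfl⟩
  · exact key p
  · have e1 : U (2 * p + 1 + c) β = U (2 * p + c) β + E (2 * p + c + 1) β := by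
      rw [show 2 * p + 1 + c = 2 * p + c + 1 by ring, U_succ]
    rw [e1, U_succ]
    have q := E_odd h0 h1 p c
    rw [show 2 * p + 1 + c = 2 * p + c + 1 by ring] at q
    have := key p
    linarith

/-- Splitting a class is bad for the adversary. -/
theorem lin_split (M₁ M₂ k₁ k₂ : ℕ) : lin M₁ k₁ β + lin M₂ k₂ β ≤ lin (M₁ + M₂) (k₁ + k₂) β := by
  unfold lin
  have := U_super h0 h1 k₁ k₂
  push_cast
  linarith

end split

/-- Separating dead vertices is free. -/
theorem lin_split_zero (M₁ M₂ k : ℕ) (β : ℕ → ℝ) : lin M₁ 0 β + lin M₂ k β = lin (M₁ + M₂) k β := by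
  unfold lin U
  rw [range_zero, sum_empty]
  push_cast
  ring

/-- The gain of playing in a class. -/
theorem Psi_play (M k s : ℕ) (hk : k + 1 ≤ M) (hs : s + 1 ≤ M) :
    Psi M (k + 1) (s + 1) - Psi M k s =
      ((M : ℝ) - (k + 1)) / M * (1 + E (k + 1) (b (M - 1) s)) := by
  have hM : (0 : ℝ) < M := by exact_mod_cast (by omega : 0 < M)
  have hb : ∀ i, b M (s + 1) (i + 1) = b M s (i + 1) + b (M - 1) s i / M := by
    intro i
    unfold b
    obtain ⟨m, rfl⟩ : ∃ m, M = m + 1 := ⟨M - 1, by omega⟩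
    rw [Nat.choose_succ_succ, Nat.add_sub_cancel, Nat.succ_descFactorial_succ]
    push_cast
    rcases Nat.lt_or_ge m i with h | h
    · rw [Nat.descFactorial_eq_zero_iff_lt.2 h]
      simp
    · have p1 : (0 : ℝ) < m.descFactorial i := by exact_mod_cast Nat.descFactorial_pos.2 h
      push_cast at hM
      field_simp
      ring
  have hE : ∀ m, E (m + 1) (b M (s + 1)) = E (m + 1) (b M s) - (1 + E m (b (M - 1) s)) / M := by
    intro m
    unfold E
    have h1 : ∀ i ∈ range (m + 1), (-1 : ℝ) ^ (i + 1) * b M (s + 1) (i + 1)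
        = (-1 : ℝ) ^ (i + 1) * b M s (i + 1) - ((-1 : ℝ) ^ i * b (M - 1) s i) / M := by
      intro i _
      rw [hb i]
      ring
    rw [sum_congr rfl h1, sum_sub_distrib, ← sum_div, sum_range_succ' (fun i => (-1 : ℝ) ^ i * b (M - 1) s i),
      b_zero]
    ring
  -- relation between the two normalisations
  have hg : ∀ j, j + 1 ≤ M → ((M : ℝ) - (j + 1)) * b (M - 1) s (j + 1) = M * b M s (j + 1) := by
    intro j hj
    unfold b
    obtain ⟨m, rfl⟩ : ∃ m, M = m + 1 := ⟨M - 1, by omega⟩
    rw [Nat.add_sub_cancel, Nat.succ_descFactorial_succ]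
    rcases Nat.lt_or_ge j m with h | h
    · have e2 : (m.descFactorial (j + 1) : ℝ) = ((m : ℝ) - j) * m.descFactorial j := by
        rw [Nat.descFactorial_succ]
        push_cast
        rw [Nat.cast_sub (by omega)]
      have p1 : (0 : ℝ) < m.descFactorial j := by exact_mod_cast Nat.descFactorial_pos.2 (by omega)
      have p2 : (0 : ℝ) < (m : ℝ) - j := by
        have : (j : ℝ) + 1 ≤ m := by exact_mod_cast h
        linarith
      rw [e2]
      push_cast
      push_cast at hM
      field_simp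
      ring
    · have : j = m := by omega
      subst this
      rw [Nat.choose_eq_zero_of_lt (by omega : s < j + 1)]
      simp
  induction k with
  | zero =>
    unfold Psi lin
    rw [show U 0 (b M s) = 0 by simp [U], show U (0 + 1) (b M (s + 1)) = E 1 (b M (s + 1)) by simp [U]]
    have e1 : E 1 (b M (s + 1)) = - b M (s + 1) 1 := by simp [E]
    have e2 : E (0 + 1) (b (M - 1) s) = - b (M - 1) s 1 := by simp [E]
    rw [e1, e2, mul_b_one M (s + 1) hs, mul_b_one M s (by omega)]
    have h3 := hg 0 (by omega)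
    have h4 : (M : ℝ) * b M s 1 = s := mul_b_one M s (by omega)
    have h5 := mul_b_one M (s + 1) hs
    have h6 : b M (s + 1) 1 = (s + 1) / M := by
      rw [eq_div_iff hM.ne', mul_comm, h5]; push_cast; ring
    rw [h6]
    have h7 : ((M : ℝ) - (0 + 1)) * b (M - 1) s (0 + 1) = s := by
      have := h3
      push_cast at this
      simpa [h4] using this
    push_cast
    field_simp
    simp only [zero_add] at h7 ⊢
    nlinarith [h7]
  | succ k ih =>
    have ih := ih (by omega)
    have e1 : Psi M (k + 1 + 1) (s + 1) = Psi M (k + 1) (s + 1) + E (k + 1 + 1) (b M (s + 1)) := by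
      unfold Psi lin; rw [U_succ (k + 1)]; ring
    have e2 : Psi M (k + 1) s = Psi M k s + E (k + 1) (b M s) := by
      unfold Psi lin; rw [U_succ k]; ring
    rw [e1, e2, hE (k + 1)]
    have e3 : Psi M (k + 1) (s + 1) + (E (k + 1 + 1) (b M s) - (1 + E (k + 1) (b (M - 1) s)) / M) -
        (Psi M k s + E (k + 1) (b M s)) = (Psi M (k + 1) (s + 1) - Psi M k s)
        + (E (k + 1 + 1) (b M s) - E (k + 1) (b M s)) - (1 + E (k + 1) (b (M - 1) s)) / M := by ring
    rw [e3, ih, E_succ (k + 1) (b M s), E_succ (k + 1) (b (M - 1) s)]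
    have h3 := hg (k + 1) hk
    have h4 : b M s (k + 1 + 1) = ((M : ℝ) - (((k : ℕ) + 1 : ℕ) + 1)) * b (M - 1) s (k + 1 + 1) / M := by
      rw [eq_div_iff hM.ne', mul_comm, ← h3]
    rw [h4]
    push_cast
    field_simp
    ring

theorem Psi_play_le (M k s : ℕ) (hk : k + 1 ≤ M) (hs : s + 1 ≤ M) : Psi M k s ≤ Psi M (k + 1) (s + 1) := by
  have h := Psi_play M k s hk hs
  have h0 : ∀ i, 0 ≤ b (M - 1) s i := fun i => b_nonneg _ _ _
  have h1 : ∀ i : ℕ, ((i : ℝ) + 1) * b (M - 1) s (i + 1) ≤ b (M - 1) s i := fun i => b_succ_le _ _ _ (by omega)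
  have h2 : 0 ≤ 1 + E (k + 1) (b (M - 1) s) := by
    have := (alt (k + 2) (b (M - 1) s) h0 (dec h0 h1)).1
    rw [sum_range_succ'] at this
    simp only [pow_zero, one_mul, b_zero] at this
    unfold E
    linarith
  have h3 : 0 ≤ ((M : ℝ) - (k + 1)) / M := by
    apply div_nonneg _ (by positivity)
    have : ((k + 1 : ℕ) : ℝ) ≤ M := by exact_mod_cast hk
    push_cast at this
    linarith
  have := mul_nonneg h3 h2
  linarith

theorem Psi_play_eq (M s : ℕ) (hM : 1 ≤ M) (hs : s + 1 ≤ M) : Psi M (M - 1) s = Psi M M (s + 1) := by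
  have h := Psi_play M (M - 1) s (by omega) hs
  have e : M - 1 + 1 = M := by omega
  rw [e] at h
  have : ((M : ℝ) - (((M - 1 : ℕ) : ℝ) + 1)) = 0 := by
    rw [Nat.cast_sub hM]; push_cast; ring
  rw [this, zero_div, zero_mul] at h
  linarith

theorem Psi_free_zero (M k : ℕ) : Psi M k 0 = 0 := by
  have h : ∀ i, b M 0 (i + 1) = 0 := by intro i; unfold b; simp
  have hE : ∀ m, E m (b M 0) = 0 := by
    intro m
    unfold E
    exact sum_eq_zero fun i _ => by rw [h i, mul_zero]
  unfold Psi lin U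
  rw [h 0, mul_zero, zero_add]
  exact sum_eq_zero fun m _ => hE _

end Pool.Agent.helper74.Lam
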