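import Pool.Agent.helper74.Lam.Num

set_option autoImplicit false

/-!
# The greedy process with a random order on a sequence of sets
-/

namespace Pool.Agent.helper74.Lam

open Finset

variable {n : ℕ}

/-- One step of the greedy algorithm with the order `τ`: the first free vertex of `S` is matched. -/
def stp (τ : Equiv.Perm (Fin n)) (S M : Finset (Fin n)) : Finset (Fin n) :=
  M ∪ ((S \ M).filter (fun v => ∀ w ∈ S \ M, τ v ≤ τ w))

/-- The set of matched vertices after `j` steps. -/
def Ms (S : Fin n → Finset (Fin n)) (τ : Equiv.Perm (Fin n)) : ℕ → Finset (Fin n)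
  | 0 => ∅
  | j + 1 => if h : j < n then stp τ (S ⟨j, h⟩) (Ms S τ j) else Ms S τ j

theorem Ms_succ (S : Fin n → Finset (Fin n)) (τ : Equiv.Perm (Fin n)) (i : Fin n) :
    Ms S τ (i + 1) = stp τ (S i) (Ms S τ i) := by
  rw [Ms, dif_pos i.2]

theorem foldl_eq (S : Fin n → Finset (Fin n)) (τ : Equiv.Perm (Fin n)) :
    (List.finRange n).foldl (fun (M : Finset (Fin n)) (i : Fin n) => stp τ (S i) M) ∅ = Ms S τ n := by
  have h : ∀ k, k ≤ n → ((List.finRange n).take k).foldl
      (fun (M : Finset (Fin n)) (i : Fin n) => stp τ (S i) M) ∅ = Ms S τ k := by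
    intro k
    induction k with
    | zero => intro _; simp [Ms]
    | succ k ih =>
      intro hk
      have h1 : (List.finRange n).take (k + 1) = (List.finRange n).take k ++ [⟨k, hk⟩] := by
        rw [List.take_succ_eq_append_getElem (by simpa using hk)]
        simp
      rw [h1, List.foldl_append, ih (by omega), Ms, dif_pos (by omega : k < n)]
      rfl
  have := h n le_rfl
  rwa [List.take_of_length_le (by simp)] at this

theorem stp_image (τ g : Equiv.Perm (Fin n)) (S M : Finset (Fin n)) :
    stp (τ * g⁻¹) (S.image g) (M.image g) = (stp τ S M).image g := by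
  unfold stp
  rw [image_union, ← image_sdiff _ _ g.injective]
  congr 1
  ext v
  simp only [mem_filter, mem_image, forall_exists_index, and_imp, forall_apply_eq_imp_iff₂]
  constructor
  · rintro ⟨⟨u, hu, rfl⟩, h⟩
    refine ⟨u, ⟨hu, fun w hw => ?_⟩, rfl⟩
    have := h w hw
    simpa using this
  · rintro ⟨u, ⟨hu, h⟩, rfl⟩
    refine ⟨⟨u, hu, rfl⟩, fun w hw => ?_⟩
    have := h w hw
    simpa using this

theorem Ms_image (S : Fin n → Finset (Fin n)) (τ g : Equiv.Perm (Fin n)) (j : ℕ)
    (h : ∀ i : Fin n, (i : ℕ) < j → (S i).image g = S i) :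
    Ms S (τ * g⁻¹) j = (Ms S τ j).image g := by
  induction j with
  | zero => simp [Ms]
  | succ j ih =>
    have ih := ih fun i hi => h i (by omega)
    rw [Ms, Ms]
    by_cases hj : j < n
    · rw [dif_pos hj, dif_pos hj, ih, ← stp_image, h ⟨j, hj⟩ (by simp)]
    · rw [dif_neg hj, dif_neg hj, ih]

/-- The number of orders for which all vertices of `T` are free after `j` steps. -/
def q (S : Fin n → Finset (Fin n)) (j : ℕ) (T : Finset (Fin n)) : ℕ :=
  (univ.filter fun τ : Equiv.Perm (Fin n) => Disjoint T (Ms S τ j)).card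

theorem q_image (S : Fin n → Finset (Fin n)) (g : Equiv.Perm (Fin n)) (j : ℕ)
    (h : ∀ i : Fin n, (i : ℕ) < j → (S i).image g = S i) (T : Finset (Fin n)) :
    q S j (T.image g) = q S j T := by
  unfold q
  symm
  refine card_bij (fun τ _ => τ * g⁻¹) ?_ ?_ ?_
  · intro τ hτ
    simp only [mem_filter, mem_univ, true_and] at hτ ⊢
    rw [Ms_image S τ g j h]
    rw [disjoint_image g.injective]
    exact hτ
  · intro a _ c _ hac
    exact mul_right_cancel hac
  · intro τ hτ
    refine ⟨τ * g, ?_, by simp⟩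
    simp only [mem_filter, mem_univ, true_and] at hτ ⊢
    have := Ms_image S (τ * g) g j h
    rw [mul_inv_cancel_right] at this
    rw [this, disjoint_image g.injective] at hτ
    exact hτ

/-- `C` is an atom (or smaller) with respect to the first `j` sets. -/
def Past (S : Fin n → Finset (Fin n)) (j : ℕ) (C : Finset (Fin n)) : Prop :=
  ∀ i : Fin n, (i : ℕ) < j → C ⊆ S i ∨ Disjoint C (S i)

theorem swap_image {A C : Finset (Fin n)} (h : C ⊆ A ∨ Disjoint C A) {x y : Fin n} (hx : x ∈ C) (hy : y ∈ C) :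
    A.image (Equiv.swap x y) = A := by
  have key : ∀ v, v ∈ A → Equiv.swap x y v ∈ A := by
    intro v hv
    rcases h with h | h
    · by_cases h1 : v = x
      · subst h1; rw [Equiv.swap_apply_left]; exact h hy
      by_cases h2 : v = y
      · subst h2; rw [Equiv.swap_apply_right]; exact h hx
      rw [Equiv.swap_apply_of_ne_of_ne h1 h2]; exact hv
    · have h1 : v ≠ x := fun e => (disjoint_left.1 h hx) (e ▸ hv)
      have h2 : v ≠ y := fun e => (disjoint_left.1 h hy) (e ▸ hv)
      rw [Equiv.swap_apply_of_ne_of_ne h1 h2]; exact hv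
  ext v
  constructor
  · intro hv
    obtain ⟨u, hu, rfl⟩ := mem_image.1 hv
    exact key u hu
  · intro hv
    exact mem_image.2 ⟨Equiv.swap x y v, key v hv, by simp⟩

theorem q_const (S : Fin n → Finset (Fin n)) (j : ℕ) (C : Finset (Fin n)) (hC : Past S j C) (m : ℕ) :
    ∀ T T' : Finset (Fin n), T ⊆ C → T' ⊆ C → T.card = T'.card → (T' \ T).card = m → q S j T = q S j T' := by
  induction m with
  | zero =>
    intro T T' _ _ hc h0
    have h1 : T' ⊆ T := by
      rw [card_eq_zero, sdiff_eq_empty_iff_subset] at h0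
      exact h0
    rw [eq_of_subset_of_card_le h1 hc.le]
  | succ m ih =>
    intro T T' hT hT' hc h0
    obtain ⟨y, hy⟩ : (T' \ T).Nonempty := card_pos.1 (by omega)
    have h2 : (T \ T').card = (T' \ T).card := by
      have e1 := card_sdiff_add_card_inter T T'
      have e2 := card_sdiff_add_card_inter T' T
      rw [inter_comm] at e2
      omega
    obtain ⟨x, hx⟩ : (T \ T').Nonempty := card_pos.1 (by omega)
    rw [mem_sdiff] at hx hy
    have hxC := hT hx.1
    have hyC := hT' hy.1
    have e1 : T.image (Equiv.swap x y) = insert y (T.erase x) := by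
      ext v
      simp only [mem_image, mem_insert, mem_erase]
      constructor
      · rintro ⟨u, hu, rfl⟩
        by_cases h1 : u = x
        · subst h1; left; rw [Equiv.swap_apply_left]
        · have h3 : u ≠ y := fun e => hy.2 (e ▸ hu)
          rw [Equiv.swap_apply_of_ne_of_ne h1 h3]
          exact Or.inr ⟨h1, hu⟩
      · rintro (rfl | ⟨h1, h3⟩)
        · exact ⟨x, hx.1, by rw [Equiv.swap_apply_left]⟩
        · have h4 : v ≠ y := fun e => hy.2 (e ▸ h3)
          exact ⟨v, h3, Equiv.swap_apply_of_ne_of_ne h1 h4⟩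
    have e2 := q_image S (Equiv.swap x y) j (fun i hi => swap_image (hC i hi) hxC hyC) T
    rw [e1] at e2
    rw [← e2]
    apply ih
    · intro v hv
      rcases mem_insert.1 hv with rfl | hv
      · exact hyC
      · exact hT (mem_of_mem_erase hv)
    · exact hT'
    · rw [card_insert_of_notMem (fun h => hy.2 (mem_of_mem_erase h)), card_erase_of_mem hx.1, ← hc]
      have : 0 < T.card := card_pos.2 ⟨x, hx.1⟩
      omega
    · have e3 : T' \ insert y (T.erase x) = (T' \ T).erase y := by
        ext v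
        simp only [mem_sdiff, mem_insert, mem_erase, not_or, not_and]
        constructor
        · rintro ⟨h1, h3, h4⟩
          refine ⟨h3, h1, fun h5 => ?_⟩
          by_cases h6 : v = x
          · subst h6; exact hx.2 h1
          · exact h4 h6 h5
        · rintro ⟨h1, h3, h4⟩
          exact ⟨h3, h1, fun _ h5 => h4 h5⟩
      rw [e3, card_erase_of_mem (mem_sdiff.2 hy), h0]
      rfl

theorem sum_choose (S : Fin n → Finset (Fin n)) (j : ℕ) (C : Finset (Fin n)) (i : ℕ) :
    ∑ τ : Equiv.Perm (Fin n), ((C \ Ms S τ j).card.choose i : ℝ) = ∑ T ∈ C.powersetCard i, (q S j T : ℝ) := by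
  have h : ∀ τ : Equiv.Perm (Fin n), ((C \ Ms S τ j).card.choose i : ℝ)
      = ∑ T ∈ C.powersetCard i, if Disjoint T (Ms S τ j) then (1 : ℝ) else 0 := by
    intro τ
    rw [← card_powersetCard, sum_boole]
    congr 1
    congr 1
    ext T
    simp only [mem_powersetCard, mem_filter, subset_sdiff]
    tauto
  rw [sum_congr rfl fun τ _ => h τ, sum_comm]
  refine sum_congr rfl fun T _ => ?_
  rw [sum_boole]
  rfl

/-- Exchangeability: the normalised moments of a subset of an atom are those of the atom. -/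
theorem moments (S : Fin n → Finset (Fin n)) (j : ℕ) (C C' : Finset (Fin n)) (hC : Past S j C) (hC' : C' ⊆ C)
    (i : ℕ) (hi : i ≤ C'.card) :
    ∑ τ : Equiv.Perm (Fin n), b C'.card (C' \ Ms S τ j).card i
      = ∑ τ : Equiv.Perm (Fin n), b C.card (C \ Ms S τ j).card i := by
  obtain ⟨T₀, hT₀, hT₀c⟩ := exists_subset_card_eq hi
  have key : ∀ B : Finset (Fin n), B ⊆ C → C' ⊆ B → ∑ τ : Equiv.Perm (Fin n), b B.card (B \ Ms S τ j).card i
      = (q S j T₀ : ℝ) / i.factorial := by
    intro B hB hB'
    unfold b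
    rw [← sum_div, sum_choose]
    have h1 : ∀ T ∈ B.powersetCard i, (q S j T : ℝ) = q S j T₀ := by
      intro T hT
      rw [mem_powersetCard] at hT
      rw [q_const S j C hC _ T T₀ (hT.1.trans hB) (hT₀.trans hC') (by rw [hT.2, hT₀c]) rfl]
    rw [sum_congr rfl h1, sum_const, card_powersetCard, nsmul_eq_mul]
    have hiB : i ≤ B.card := hi.trans (card_le_card hB')
    have h2 : (B.card.descFactorial i : ℝ) = i.factorial * B.card.choose i := by
      rw [Nat.descFactorial_eq_factorial_mul_choose]; push_cast; ring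
    have h3 : (0 : ℝ) < B.card.choose i := by exact_mod_cast Nat.choose_pos hiB
    have h4 : (0 : ℝ) < i.factorial := by exact_mod_cast Nat.factorial_pos i
    rw [h2]
    field_simp
  rw [key C' hC' subset_rfl, key C subset_rfl hC']

theorem sum_Psi {ι : Type*} (A : Finset ι) (M k : ℕ) (s : ι → ℕ) :
    ∑ τ ∈ A, Psi M k (s τ) = lin M k (fun i => ∑ τ ∈ A, b M (s τ) i) := by
  unfold Psi lin U E
  rw [sum_add_distrib, mul_sum]
  congr 1
  rw [sum_comm]
  refine sum_congr rfl fun m _ => ?_
  rw [sum_comm]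
  refine sum_congr rfl fun i _ => ?_
  rw [mul_sum]

theorem lin_congr (M k : ℕ) (hk : k ≤ M) (β β' : ℕ → ℝ) (h : ∀ i, 1 ≤ i → i ≤ M → β i = β' i) :
    lin M k β = lin M k β' := by
  unfold lin U E
  rcases Nat.eq_zero_or_pos M with rfl | hM
  · have : k = 0 := by omega
    subst this
    simp
  · rw [h 1 le_rfl hM]
    congr 1
    refine sum_congr rfl fun m hm => sum_congr rfl fun i hi => ?_
    rw [mem_range] at hm hi
    rw [h (i + 1) (by omega) (by omega)]

/-- Passing to a subset of an atom. -/
theorem sum_Psi_sub (S : Fin n → Finset (Fin n)) (j : ℕ) (C C' : Finset (Fin n)) (hC : Past S j C) (hC' : C' ⊆ C)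
    (k : ℕ) (hk : k ≤ C'.card) :
    ∑ τ : Equiv.Perm (Fin n), Psi C'.card k (C' \ Ms S τ j).card
      = lin C'.card k (fun i => ∑ τ : Equiv.Perm (Fin n), b C.card (C \ Ms S τ j).card i) := by
  rw [sum_Psi]
  exact lin_congr _ _ hk _ _ fun i _ hi => moments S j C C' hC hC' i hi

/-- The first element of a nonempty set in the order `τ`. -/
theorem first_eq (τ : Equiv.Perm (Fin n)) (R : Finset (Fin n)) (hR : R.Nonempty) :
    ∃ x ∈ R, (R.filter fun v => ∀ w ∈ R, τ v ≤ τ w) = {x} := by
  obtain ⟨x, hx, hmin⟩ := exists_min_image R (fun v => τ v) hR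
  refine ⟨x, hx, ?_⟩
  ext v
  simp only [mem_filter, mem_singleton]
  constructor
  · rintro ⟨h1, h2⟩
    exact τ.injective (le_antisymm (h2 x hx) (hmin v h1))
  · rintro rfl
    exact ⟨hx, fun w hw => hmin w hw⟩

/-- The number of free vertices of `S` drops by one (if it is not zero). -/
theorem card_stp (τ : Equiv.Perm (Fin n)) (S M : Finset (Fin n)) :
    (S \ stp τ S M).card = (S \ M).card - 1 := by
  unfold stp
  have h1 : S \ (M ∪ (S \ M).filter fun v => ∀ w ∈ S \ M, τ v ≤ τ w)
      = (S \ M) \ (S \ M).filter fun v => ∀ w ∈ S \ M, τ v ≤ τ w := by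
    ext v
    simp only [mem_sdiff, mem_union]
    tauto
  rw [h1]
  rcases (S \ M).eq_empty_or_nonempty with h | h
  · rw [h]; simp
  · obtain ⟨x, hx, he⟩ := first_eq τ (S \ M) h
    rw [he, sdiff_singleton_eq_erase, card_erase_of_mem hx]

/-- Nothing changes outside `S`. -/
theorem sdiff_stp (τ : Equiv.Perm (Fin n)) (S M C : Finset (Fin n)) (h : Disjoint C S) :
    C \ stp τ S M = C \ M := by
  unfold stp
  ext v
  simp only [mem_sdiff, mem_union, mem_filter, not_or, not_and]
  constructor
  · rintro ⟨h1, h2, -⟩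
    exact ⟨h1, h2⟩
  · rintro ⟨h1, h2⟩
    exact ⟨h1, h2, fun h3 => absurd h3.1 (disjoint_left.1 h h1)⟩

end Pool.Agent.helper74.Lam
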