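import Pool.Agent.helper74.Lam.Alg

set_option autoImplicit false

/-!
# Every online algorithm against the renamed monotone graph
-/

namespace Pool.Agent.helper74.Lam

open Finset

variable {n : ℕ}

theorem lin_add (M k : ℕ) (x y : ℝ) (β β' : ℕ → ℝ) :
    lin M k (fun i => x * β i + y * β' i) = x * lin M k β + y * lin M k β' := by
  unfold lin U E
  have h : ∀ m ∈ range k, ∑ i ∈ range (m + 1), (-1 : ℝ) ^ (i + 1) * (x * β (i + 1) + y * β' (i + 1))
      = x * ∑ i ∈ range (m + 1), (-1 : ℝ) ^ (i + 1) * β (i + 1)
        + y * ∑ i ∈ range (m + 1), (-1 : ℝ) ^ (i + 1) * β' (i + 1) := by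
    intro m _
    rw [mul_sum, mul_sum, ← sum_add_distrib]
    exact sum_congr rfl fun i _ => by ring
  rw [sum_congr rfl h, sum_add_distrib, ← mul_sum, ← mul_sum]
  ring

/-- Averaging over a uniformly random kill. -/
theorem Psi_avg (k s : ℕ) (hs : s ≤ k + 1) :
    (s : ℝ) * (1 + Psi k k (s - 1)) + ((k : ℝ) + 1 - s) * Psi k k s = ((k : ℝ) + 1) * Psi (k + 1) k s := by
  have hb : ∀ i, 1 ≤ i → i ≤ k → (s : ℝ) * b k (s - 1) i + ((k : ℝ) + 1 - s) * b k s i
      = ((k : ℝ) + 1) * b (k + 1) s i := by
    intro i hi hik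
    unfold b
    obtain ⟨j, rfl⟩ : ∃ j, i = j + 1 := ⟨i - 1, by omega⟩
    have h1 : (s : ℝ) * ((s - 1).choose (j + 1) : ℝ) = ((s : ℝ) - (j + 1)) * s.choose (j + 1) := by
      rcases Nat.eq_zero_or_pos s with rfl | hs0
      · simp
      · obtain ⟨r, rfl⟩ : ∃ r, s = r + 1 := ⟨s - 1, by omega⟩
        rw [Nat.add_sub_cancel]
        have h2 := Nat.add_one_mul_choose_eq r j
        have h3 : ((r + 1).choose (j + 1) : ℝ) = r.choose j + r.choose (j + 1) := by
          rw [Nat.choose_succ_succ]; push_cast; ring
        have h4 : ((r : ℝ) + 1) * r.choose j = (r + 1).choose (j + 1) * ((j : ℝ) + 1) := by exact_mod_cast h2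
        push_cast
        rw [h3] at h4 ⊢
        nlinarith
    have h2 : ((k + 1).descFactorial (j + 1) : ℝ) = ((k : ℝ) + 1) * k.descFactorial j := by
      rw [Nat.succ_descFactorial_succ]; push_cast; ring
    have h3 : (k.descFactorial (j + 1) : ℝ) = ((k : ℝ) - j) * k.descFactorial j := by
      rw [Nat.descFactorial_succ]
      push_cast
      rw [Nat.cast_sub (by omega)]
    have p1 : (0 : ℝ) < k.descFactorial j := by exact_mod_cast Nat.descFactorial_pos.2 (by omega)
    have p2 : (0 : ℝ) < (k : ℝ) - j := by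
      have : (j : ℝ) + 1 ≤ k := by exact_mod_cast hik
      linarith
    have p3 : (0 : ℝ) < (k : ℝ) + 1 := by positivity
    rw [h2, h3]
    rw [mul_div_assoc', mul_div_assoc', h1, ← add_div, mul_div_assoc', div_eq_div_iff (by positivity) (by positivity)]
    ring
  have e1 : (s : ℝ) * Psi k k (s - 1) + ((k : ℝ) + 1 - s) * Psi k k s
      = lin k k (fun i => ((k : ℝ) + 1) * b (k + 1) s i) := by
    unfold Psi
    rw [← lin_add]
    exact lin_congr _ _ le_rfl _ _ hb
  have e2 : lin 1 0 (fun i => ((k : ℝ) + 1) * b (k + 1) s i) = s := by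
    have := mul_b_one (k + 1) s hs
    push_cast at this
    unfold lin U
    simp only [Nat.cast_one, one_mul, range_zero, sum_empty, add_zero]
    exact this
  have e3 : lin (k + 1) k (fun i => ((k : ℝ) + 1) * b (k + 1) s i) = ((k : ℝ) + 1) * Psi (k + 1) k s := by
    have := lin_add (k + 1) k ((k : ℝ) + 1) 0 (b (k + 1) s) (b (k + 1) s)
    simp only [zero_mul, add_zero] at this
    exact this
  have e4 := lin_split_zero 1 k k (fun i => ((k : ℝ) + 1) * b (k + 1) s i)
  rw [Nat.add_comm 1 k, e2, e3] at e4
  linarith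

theorem Psi_anti_k (M k s : ℕ) (hs : s ≤ M) : Psi M (k + 1) s ≤ Psi M k s := by
  have h0 : ∀ i, 0 ≤ b M s i := fun i => b_nonneg _ _ _
  have h1 : ∀ i : ℕ, ((i : ℝ) + 1) * b M s (i + 1) ≤ b M s i := fun i => b_succ_le _ _ _ hs
  have h2 : E (k + 1) (b M s) ≤ 0 := by
    have := (alt (k + 1) (fun i => b M s (i + 1)) (fun i => h0 _) (fun i => dec h0 h1 _)).1
    unfold E
    have e : ∑ i ∈ range (k + 1), (-1 : ℝ) ^ (i + 1) * b M s (i + 1)
        = - ∑ i ∈ range (k + 1), (-1 : ℝ) ^ i * b M s (i + 1) := by
      rw [← sum_neg_distrib]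
      exact sum_congr rfl fun i _ => by ring
    rw [e]
    linarith
  have e1 : Psi M (k + 1) s = Psi M k s + E (k + 1) (b M s) := by
    unfold Psi lin; rw [U_succ k]; ring
  linarith

theorem Psi_mono_s (M k s : ℕ) (hk : k ≤ M) (hs : s + 1 ≤ M) : Psi M k s ≤ Psi M k (s + 1) := by
  rcases Nat.eq_zero_or_pos k with rfl | h
  · rw [Psi_zero _ _ (by omega), Psi_zero _ _ hs]
    push_cast
    linarith
  · obtain ⟨k', rfl⟩ : ∃ k', k = k' + 1 := ⟨k - 1, by omega⟩
    exact (Psi_anti_k M k' s (by omega)).trans (Psi_play_le M k' s hk hs)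

/-- The matched set of a deterministic online algorithm. -/
def Mo (A : Fin n → (Fin n → Finset (Fin n)) → Option (Fin n)) (N : Fin n → Finset (Fin n)) :
    ℕ → Finset (Fin n)
  | 0 => ∅
  | j + 1 => if h : j < n then
      (A ⟨j, h⟩ (fun l => if l ≤ ⟨j, h⟩ then N l else ∅)).elim (Mo A N j)
        (fun v => if v ∈ N ⟨j, h⟩ ∧ v ∉ Mo A N j then insert v (Mo A N j) else Mo A N j)
      else Mo A N j

theorem onl_eq (A : Fin n → (Fin n → Finset (Fin n)) → Option (Fin n)) (N : Fin n → Finset (Fin n)) :
    onl A N = (Mo A N n).card := by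
  unfold onl
  congr 1
  have h1 : ∀ k, k ≤ n → ((List.finRange n).take k).foldl
      (fun (M : Finset (Fin n)) (i : Fin n) =>
      (A i (fun j => if j ≤ i then N j else ∅)).elim M
        (fun v => if v ∈ N i ∧ v ∉ M then insert v M else M)) ∅ = Mo A N k := by
    intro k
    induction k with
    | zero => intro _; simp [Mo]
    | succ k ih =>
      intro hk
      have h1 : (List.finRange n).take (k + 1) = (List.finRange n).take k ++ [⟨k, hk⟩] := by
        rw [List.take_succ_eq_append_getElem (by simpa using hk)]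
        simp
      rw [h1, List.foldl_append, ih (by omega), Mo, dif_pos (by omega : k < n)]
      rfl
  have := h1 n le_rfl
  rwa [List.take_of_length_le (by simp)] at this

/-- What one step does. -/
theorem Mo_step (A : Fin n → (Fin n → Finset (Fin n)) → Option (Fin n)) (N : Fin n → Finset (Fin n)) (j : ℕ)
    (hj : j < n) : Mo A N (j + 1) = Mo A N j ∨ ∃ v ∈ N ⟨j, hj⟩, Mo A N (j + 1) = insert v (Mo A N j) := by
  rw [Mo, dif_pos hj]
  rcases A ⟨j, hj⟩ (fun l => if l ≤ ⟨j, hj⟩ then N l else ∅) with _ | v
  · left; rfl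
  · rw [Option.elim_some]
    split_ifs with h
    · right; exact ⟨v, h.1, rfl⟩
    · left; rfl

theorem Mo_congr (A : Fin n → (Fin n → Finset (Fin n)) → Option (Fin n)) (N N' : Fin n → Finset (Fin n)) (j : ℕ)
    (h : ∀ i : Fin n, (i : ℕ) < j → N i = N' i) : Mo A N j = Mo A N' j := by
  induction j with
  | zero => rfl
  | succ j ih =>
    have ih := ih fun i hi => h i (by omega)
    rw [Mo, Mo, ih]
    by_cases hj : j < n
    · rw [dif_pos hj, dif_pos hj, h ⟨j, hj⟩ (by simp)]
      have e : (fun l : Fin n => if l ≤ ⟨j, hj⟩ then N l else ∅) = fun l => if l ≤ ⟨j, hj⟩ then N' l else ∅ := by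
        funext l
        by_cases hl : l ≤ ⟨j, hj⟩
        · rw [if_pos hl, if_pos hl, h l (by rw [Fin.le_def] at hl; simp at hl; omega)]
        · rw [if_neg hl, if_neg hl]
      rw [e]
    · rw [dif_neg hj, dif_neg hj]

/-- The renamed monotone graph. -/
def ren (π : Equiv.Perm (Fin n)) : Fin n → Finset (Fin n) := fun i => (up n i).image π

theorem tail_swap (j : Fin n) (l : Fin n) (hl : j ≤ l) (i : ℕ) (hi : i ≤ j) :
    (tail n i).image (Equiv.swap j l) = tail n i := by
  apply swap_image (C := tail n i) (Or.inl subset_rfl)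
  · simp only [tail, mem_filter, mem_univ, true_and]; omega
  · simp only [tail, mem_filter, mem_univ, true_and]
    rw [Fin.le_def] at hl
    omega

theorem ren_swap (π : Equiv.Perm (Fin n)) (j l : Fin n) (hl : j ≤ l) (i : Fin n) (hi : (i : ℕ) < j + 1) :
    ren (π * Equiv.swap j l) i = ren π i := by
  unfold ren
  rw [Equiv.Perm.coe_mul, ← image_image, up_eq, tail_swap j l hl i (by omega)]

/-- The potential of the state after `j` steps. -/
noncomputable def W (A : Fin n → (Fin n → Finset (Fin n)) → Option (Fin n)) (j : ℕ) : ℝ :=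
  ∑ π : Equiv.Perm (Fin n), ((((univ \ (tail n j).image π) \ Mo A (ren π) j).card : ℝ)
    + Psi (n - j) (n - j) ((tail n j).image π \ Mo A (ren π) j).card)

theorem W_step (A : Fin n → (Fin n → Finset (Fin n)) → Option (Fin n)) (j : ℕ) (hj : j < n) :
    W A j ≤ W A (j + 1) := by
  set i₀ : Fin n := ⟨j, hj⟩ with hi₀
  obtain ⟨k, hk⟩ : ∃ k, n - j = k + 1 := ⟨n - j - 1, by omega⟩
  set F : Equiv.Perm (Fin n) → Finset (Fin n) := fun π => (tail n j).image π \ Mo A (ren π) (j + 1) with hF
  have hcardT : (tail n j).card = k + 1 := by rw [tail_card j hj.le, hk]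
  have hFle : ∀ π, (F π).card ≤ k + 1 := by
    intro π
    rw [hF]
    refine (card_le_card sdiff_subset).trans (card_image_le.trans hcardT.le)
  have hun : tail n j = insert i₀ (tail n (j + 1)) := by
    ext v
    simp only [tail, mem_filter, mem_univ, true_and, mem_insert, Fin.ext_iff, hi₀]
    omega
  have hnot : i₀ ∉ tail n (j + 1) := by simp [tail, hi₀]
  -- the kill
  have e1 : ∀ π : Equiv.Perm (Fin n), (tail n (j + 1)).image π \ Mo A (ren π) (j + 1) = (F π).erase (π i₀) := by
    intro π
    rw [hF]
    simp only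
    rw [hun, image_insert, ← erase_sdiff_comm, erase_insert]
    intro h
    obtain ⟨a, ha, hae⟩ := mem_image.1 h
    rw [π.injective hae] at ha
    exact hnot ha
  have e2 : ∀ π : Equiv.Perm (Fin n), (((univ \ (tail n (j + 1)).image π) \ Mo A (ren π) (j + 1)).card : ℝ)
      = (((univ \ (tail n j).image π) \ Mo A (ren π) j).card : ℝ) + if π i₀ ∈ F π then 1 else 0 := by
    intro π
    have hout : ∀ v, v ∉ (tail n j).image π → (v ∈ Mo A (ren π) (j + 1) ↔ v ∈ Mo A (ren π) j) := by
      intro v hv
      rcases Mo_step A (ren π) j hj with h | ⟨w, hw, h⟩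
      · rw [h]
      · rw [h, mem_insert]
        constructor
        · rintro (rfl | h2)
          · exfalso
            apply hv
            have : ren π ⟨j, hj⟩ = (tail n j).image π := by unfold ren; rw [up_eq]
            rwa [this] at hw
          · exact h2
        · exact Or.inr
    have hset : (univ \ (tail n (j + 1)).image π) \ Mo A (ren π) (j + 1)
        = ((univ \ (tail n j).image π) \ Mo A (ren π) j) ∪ (if π i₀ ∈ F π then {π i₀} else ∅) := by
      ext v
      by_cases hv : v = π i₀
      · subst hv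
        have h1 : π i₀ ∈ (tail n j).image π := mem_image_of_mem _ (by rw [hun]; exact mem_insert_self _ _)
        have h2 : π i₀ ∉ (tail n (j + 1)).image π := by
          intro h
          obtain ⟨a, ha, hae⟩ := mem_image.1 h
          rw [π.injective hae] at ha
          exact hnot ha
        by_cases h3 : π i₀ ∈ F π
        · rw [if_pos h3]
          simp only [mem_union, mem_sdiff, mem_univ, true_and, mem_singleton, or_true, iff_true]
          exact ⟨h2, (mem_sdiff.1 h3).2⟩
        · rw [if_neg h3]
          have h4 : π i₀ ∈ Mo A (ren π) (j + 1) := by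
            by_contra h5
            exact h3 (mem_sdiff.2 ⟨h1, h5⟩)
          simp only [mem_union, mem_sdiff, mem_univ, true_and, notMem_empty, or_false]
          constructor
          · rintro ⟨-, h5⟩
            exact absurd h4 h5
          · rintro ⟨h5, -⟩
            exact absurd h1 h5
      · have h1 : v ∈ (tail n j).image π ↔ v ∈ (tail n (j + 1)).image π := by
          rw [hun, image_insert, mem_insert]
          simp [hv]
        have h2 : v ∉ (if π i₀ ∈ F π then ({π i₀} : Finset (Fin n)) else ∅) := by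
          split_ifs <;> simp [hv]
        simp only [mem_union, mem_sdiff, mem_univ, true_and, h2, or_false]
        constructor
        · rintro ⟨h3, h4⟩
          rw [← h1] at h3
          exact ⟨h3, fun h5 => h4 ((hout v h3).2 h5)⟩
        · rintro ⟨h3, h4⟩
          refine ⟨fun h5 => h3 (h1.2 h5), fun h5 => h4 ((hout v h3).1 h5)⟩
    rw [hset, card_union_of_disjoint]
    · push_cast
      congr 1
      split_ifs <;> simp
    · rw [disjoint_left]
      intro v h1 h2
      split_ifs at h2 with h3
      · rw [mem_singleton] at h2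
        subst h2
        have : π i₀ ∈ (tail n j).image π := mem_image_of_mem _ (by rw [hun]; exact mem_insert_self _ _)
        exact (mem_sdiff.1 (mem_sdiff.1 h1).1).2 this
      · simp at h2
  -- `F` is invariant
  have hinv : ∀ (π : Equiv.Perm (Fin n)) (l : Fin n), i₀ ≤ l → F (π * Equiv.swap i₀ l) = F π := by
    intro π l hl
    rw [hF]
    simp only
    rw [Equiv.Perm.coe_mul, ← image_image, tail_swap i₀ l hl j le_rfl]
    congr 1
    exact Mo_congr A _ _ _ fun i hi => ren_swap π i₀ l hl i hi
  set f : Equiv.Perm (Fin n) → Fin n → ℝ := fun π l =>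
    (if π l ∈ F π then 1 else 0) + Psi k k ((F π).erase (π l)).card with hf
  have havg : ∀ l : Fin n, i₀ ≤ l → ∑ π : Equiv.Perm (Fin n), f π l = ∑ π : Equiv.Perm (Fin n), f π i₀ := by
    intro l hl
    rw [← Equiv.sum_comp (Equiv.mulRight (Equiv.swap i₀ l)) (fun π => f π i₀)]
    refine sum_congr rfl fun π _ => ?_
    simp only [Equiv.coe_mulRight, hf]
    rw [hinv π l hl, Equiv.Perm.mul_apply, Equiv.swap_apply_left]
  have hsum : ((k : ℝ) + 1) * ∑ π : Equiv.Perm (Fin n), f π i₀
      = ((k : ℝ) + 1) * ∑ π : Equiv.Perm (Fin n), Psi (k + 1) k (F π).card := by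
    have h1 : ((k : ℝ) + 1) * ∑ π : Equiv.Perm (Fin n), f π i₀
        = ∑ l ∈ tail n j, ∑ π : Equiv.Perm (Fin n), f π l := by
      rw [sum_congr rfl (fun l hl => havg l (by
        simp only [tail, mem_filter, mem_univ, true_and] at hl
        rw [Fin.le_def]; simpa [hi₀] using hl)), sum_const, hcardT, nsmul_eq_mul]
      push_cast
      ring
    rw [h1, sum_comm, mul_sum]
    refine sum_congr rfl fun π _ => ?_
    rw [← Psi_avg k _ (hFle π)]
    -- split the sum over `tail` according to `π l ∈ F`
    have h2 : ∀ l ∈ tail n j, f π l = if π l ∈ F π then 1 + Psi k k ((F π).card - 1) else Psi k k (F π).card := by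
      intro l _
      rw [hf]
      simp only
      split_ifs with h3
      · rw [card_erase_of_mem h3]
      · rw [erase_eq_of_notMem h3, zero_add]
    rw [sum_congr rfl h2, sum_ite, sum_const, sum_const, nsmul_eq_mul, nsmul_eq_mul]
    have h3 : ((tail n j).filter fun l => π l ∈ F π).card = (F π).card := by
      have h4 : F π = ((tail n j).filter fun l => π l ∈ F π).image π := by
        ext v
        rw [mem_image]
        constructor
        · intro hv
          have hv2 := hv
          rw [hF] at hv2
          obtain ⟨l, hl, rfl⟩ := mem_image.1 (mem_sdiff.1 hv2).1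
          exact ⟨l, mem_filter.2 ⟨hl, hv⟩, rfl⟩
        · rintro ⟨l, hl, rfl⟩
          exact (mem_filter.1 hl).2
      conv_rhs => rw [h4]
      rw [card_image_of_injective _ π.injective]
    have h5 : (((tail n j).filter fun l => ¬ π l ∈ F π).card : ℝ) = (k : ℝ) + 1 - (F π).card := by
      have h6 := card_filter_add_card_filter_not (s := tail n j) (fun l => π l ∈ F π)
      rw [h3, hcardT] at h6
      have : (((F π).card + ((tail n j).filter fun l => ¬ π l ∈ F π).card : ℕ) : ℝ) = ((k + 1 : ℕ) : ℝ) := by
        rw [h6]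
      push_cast at this
      linarith
    rw [h3, h5]
  have hk0 : ((k : ℝ) + 1) ≠ 0 := by positivity
  have hsum' := mul_left_cancel₀ hk0 hsum
  have hW : W A (j + 1) = ∑ π : Equiv.Perm (Fin n), (((univ \ (tail n j).image π) \ Mo A (ren π) j).card : ℝ)
      + ∑ π : Equiv.Perm (Fin n), f π i₀ := by
    unfold W
    rw [← sum_add_distrib]
    refine sum_congr rfl fun π _ => ?_
    rw [e1, e2, hf, show n - (j + 1) = k by omega]
    ring
  rw [hW, hsum', ← sum_add_distrib]
  unfold W
  refine sum_le_sum fun π _ => ?_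
  rw [hk]
  have hstep : ((tail n j).image π \ Mo A (ren π) j).card ≤ (F π).card + 1 := by
    rcases Mo_step A (ren π) j hj with h | ⟨w, hw, h⟩
    · rw [hF]; simp only; rw [h]; omega
    · have h2 : (tail n j).image π \ Mo A (ren π) j ⊆ insert w (F π) := by
        intro v hv
        rw [mem_sdiff] at hv
        rw [mem_insert]
        by_cases h3 : v = w
        · exact Or.inl h3
        · right
          rw [hF]
          simp only
          rw [h, mem_sdiff, mem_insert, not_or]
          exact ⟨hv.1, h3, hv.2⟩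
      exact (card_le_card h2).trans (card_insert_le _ _)
  have hle : ((tail n j).image π \ Mo A (ren π) j).card ≤ k + 1 :=
    (card_le_card sdiff_subset).trans (card_image_le.trans hcardT.le)
  have hmono : ∀ s s', s ≤ s' → s' ≤ k + 1 → Psi (k + 1) k s ≤ Psi (k + 1) k s' := by
    intro s s' h
    induction h with
    | refl => intro _; exact le_rfl
    | step h ih => intro h2; exact (ih (by omega)).trans (Psi_mono_s _ _ _ (by omega) h2)
  have : Psi (k + 1) (k + 1) ((tail n j).image π \ Mo A (ren π) j).card ≤ Psi (k + 1) k (F π).card := by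
    rcases Nat.eq_zero_or_pos ((tail n j).image π \ Mo A (ren π) j).card with h0 | h0
    · rw [h0, Psi_free_zero, ← Psi_free_zero (k + 1) k]
      exact hmono _ _ (Nat.zero_le _) (hFle π)
    · obtain ⟨s, hs⟩ : ∃ s, ((tail n j).image π \ Mo A (ren π) j).card = s + 1 :=
        ⟨((tail n j).image π \ Mo A (ren π) j).card - 1, by omega⟩
      rw [hs, ← Psi_play_eq (k + 1) s (by omega) (by omega), Nat.add_sub_cancel]
      exact hmono _ _ (by omega) (hFle π)
  linarith

theorem W_le (A : Fin n → (Fin n → Finset (Fin n)) → Option (Fin n)) : W A 0 ≤ W A n := by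
  have h : ∀ j, j ≤ n → W A 0 ≤ W A j := by
    intro j
    induction j with
    | zero => intro _; exact le_rfl
    | succ j ih => intro hj; exact (ih (by omega)).trans (W_step A j (by omega))
  exact h n le_rfl

/-- Every deterministic online algorithm against the renamed monotone graph. -/
theorem det_le (A : Fin n → (Fin n → Finset (Fin n)) → Option (Fin n)) :
    (∑ π : Equiv.Perm (Fin n), (onl A (ren π) : ℝ)) / n.factorial ≤ upVal n := by
  have h := W_le A
  have hn : tail n n = ∅ := by
    rw [← card_eq_zero, tail_card n le_rfl, Nat.sub_self]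
  have h0 : tail n 0 = univ := by ext v; simp [tail]
  have e0 : W A 0 = (n.factorial : ℝ) * Psi n n n := by
    unfold W
    rw [h0]
    simp [Mo, Fintype.card_perm, card_image_of_injective]
  have e1 : W A n = ∑ π : Equiv.Perm (Fin n), ((n : ℝ) - (onl A (ren π) : ℝ)) := by
    unfold W
    rw [hn]
    refine sum_congr rfl fun π _ => ?_
    rw [Nat.sub_self, image_empty, sdiff_empty, empty_sdiff, card_empty, Psi_free_zero, add_zero, onl_eq,
      card_sdiff_of_subset (subset_univ _), card_univ, Fintype.card_fin,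
      Nat.cast_sub (by simpa using card_le_univ (Mo A (ren π) n))]
  have e2 : upVal n = (∑ τ : Equiv.Perm (Fin n), ((n : ℝ) - ((univ \ Ms (up n) τ n).card : ℝ))) / n.factorial := by
    unfold upVal
    congr 1
    refine sum_congr rfl fun τ _ => ?_
    rw [card_sdiff_of_subset (subset_univ _), card_univ, Fintype.card_fin,
      Nat.cast_sub (by simpa using card_le_univ (Ms (up n) τ n))]
    ring
  rw [e2, sum_sub_distrib, mono_total]
  rw [e0, e1, sum_sub_distrib] at h
  apply div_le_div_of_nonneg_right _ (by positivity)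
  linarith

end Pool.Agent.helper74.Lam
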